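import Pool.Agent.Y20.VP.Grp
import Pool.Agent.TH954.Z.WTop
import Pool.Agent.TH954.Z.TopB

/-!
# A closed subset of codimension two does not dominate the product of the other curves
-/

set_option autoImplicit false
set_option linter.unusedSectionVars false

open MvPolynomial Pool.Agent.TH954.X Pool.Agent.TH954.X.We Pool.Agent.TH954.V Pool.Agent.TH954.Y
  Pool.Agent.TH954.Y.RedL

namespace Pool.Agent.Y20.VP

/-- the points of the curve have coordinates with the stated properties, and conversely -/
lemma exists_pt {K : Type} [Field K] [CharZero K] {a b : K} (hD : 4 * a ^ 3 + 27 * b ^ 2 ≠ 0)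
    {F : Type} [Field F] [Algebra K F] {v : Fin 3 → F} (hv : OnC a b v) :
    ∃ P : (curve (algebraMap K F a) (algebraMap K F b)).toAffine.Point, coords P = v := by
  obtain ⟨P, hP⟩ := (toPt_bij a b hD (F := F)).2 ⟨v, hv.1, fun i => by
    rw [Subsingleton.elim i 0]; exact hv.2⟩
  exact ⟨P, congrArg Subtype.val hP⟩

/-- hypersurfaces have codimension at least one -/
lemma topE {K : Type} [Field K] [CharZero K] {k : ℕ} (a b : Fin k → K)
    (hd : ∀ i, 4 * a i ^ 3 + 27 * b i ^ 2 ≠ 0) (g : MvPolynomial (Fin k × Fin 3) K)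
    (τ : Fin k → ℕ) (hg : MH τ g)
    (hnz : ∃ (F : Type) (_ : Field F) (_ : Algebra K F) (w : Fin k → Fin 3 → F),
      OnB a b w ∧ ev g w ≠ 0) : Codim a b (fun _ : Unit => g) 1 := by
  classical
  obtain ⟨A, hTop, hA⟩ := Pool.Agent.TH954.Z.wtop K 3 le_rfl k a b hd
  have hpt : ∀ (F : Type) [Field F] [Algebra K F] (u : Fin k → Fin 3 → F), OnB a b u →
      ∃ P : Pool.Agent.TH954.Z.Bp A F, Pool.Agent.TH954.Z.vc P = u := by
    intro F _ _ u hu
    have h1 : ∀ i, ∃ P : (A i).Pt F, P.1 = u i := by
      intro i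
      obtain ⟨P, hP⟩ := exists_pt (hd i) (hu i)
      obtain ⟨e, he⟩ := (hA i).2 F
      refine ⟨e.symm P, ?_⟩
      rw [he (e.symm P)]
      funext c
      rw [dif_pos (show c.1 < 3 from c.2), e.apply_symm_apply, hP]
    choose P hP using h1
    exact ⟨P, funext hP⟩
  have hNZ : Pool.Agent.TH954.Z.NZ A g := by
    obtain ⟨F, iF, iA, w, hw, hw0⟩ := hnz
    obtain ⟨P, hP⟩ := hpt F w hw
    exact ⟨F, iF, iA, P, by rw [hP]; exact hw0⟩
  have hmain := Pool.Agent.TH954.Z.top K 3 k A hTop g τ hg hNZ
  intro F _ _ u hu hu0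
  obtain ⟨P, hP⟩ := hpt F u hu
  have h2 := hmain F P (fun i => by rw [hP]; exact hu0 i)
  have hs : ∑ i, (A i).dim = k := by
    rw [Finset.sum_congr rfl fun i _ => (hA i).1]
    simp
  rw [hs, hP] at h2
  exact h2

/-- the generic point of a product of curves -/
lemma exists_generic {K : Type} [Field K] [CharZero K] : ∀ (k : ℕ) (a b : Fin k → K),
    ∃ (F : Type) (_ : Field F) (_ : Algebra K F) (w : Fin k → Fin 3 → F), OnB a b w ∧
      (k : Cardinal) ≤ Algebra.trdeg K (IntermediateField.adjoin K
        (Set.range (fun p : Fin k × Fin 3 => w p.1 p.2))) := by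
  intro k
  induction k with
  | zero =>
    intro a b
    refine ⟨K, inferInstance, inferInstance, fun i => i.elim0, fun i => i.elim0, ?_⟩
    simp
  | succ k ih =>
    intro a b
    obtain ⟨F, iF, iA, w, hw, hk⟩ := ih (fun i => a (Fin.castSucc i)) (fun i => b (Fin.castSucc i))
    obtain ⟨F1, _, _, _, _, v, hv, hv0, ht⟩ := exists_gen (F := F) (a (Fin.last k)) (b (Fin.last k))
    refine ⟨F1, inferInstance, inferInstance, snoc (fun i c => algebraMap F F1 (w i c)) v, ?_, ?_⟩
    · intro i
      refine Fin.lastCases ?_ (fun j => ?_) i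
      · simpa [snoc] using hv
      · have := onC_map (F' := F1) (hw j)
        simpa [snoc] using this
    · have h2 := trdeg_step (IntermediateField.adjoin K
          (Set.range (fun p : Fin k × Fin 3 => w p.1 p.2)))
        (IntermediateField.adjoin K (Set.range (fun p : Fin (k + 1) × Fin 3 =>
          snoc (fun i c => algebraMap F F1 (w i c)) v p.1 p.2))) ?_ (v 1) ?_ ht
      · push_cast
        exact (add_le_add_left hk 1).trans h2
      · intro y hy
        have hle : IntermediateField.adjoin K (Set.range (fun p : Fin k × Fin 3 => w p.1 p.2)) ≤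
            (IntermediateField.adjoin K (Set.range (fun p : Fin (k + 1) × Fin 3 =>
              snoc (fun i c => algebraMap F F1 (w i c)) v p.1 p.2))).comap
              (IsScalarTower.toAlgHom K F F1) := by
          rw [IntermediateField.adjoin_le_iff]
          rintro _ ⟨p, rfl⟩
          refine IntermediateField.subset_adjoin K _ ⟨(Fin.castSucc p.1, p.2), ?_⟩
          simp [snoc]
        exact hle hy
      · refine IntermediateField.subset_adjoin K _ ⟨(Fin.last k, 1), ?_⟩
        simp [snoc]

theorem gform : T_gform := by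
  classical
  intro K _ _ k a b hd E _ f δ hf hcod
  set wq : Fin (k + 1) → MvPolynomial (Fin (k + 1) × Fin 3) K := fun j => ceqG a b j with hwq
  have hw : ∀ j, MH (fun i => if i = j then 3 else 0) (wq j) := fun j =>
    rename_MHG (eqn_hom _ _) j
  have hev : ∀ {F : Type} [Field F] [Algebra K F] (u : Fin (k + 1) → Fin 3 → F)
      (j : Fin (k + 1)), ev (wq j) u = aeval (u j) (eqn (a j) (b j) 0) := by
    intro F _ _ u j
    unfold ev
    rw [hwq]
    simp only [ceqG]
    rw [aeval_rename]
    rfl
  set e2 := Fintype.equivFin E with he2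
  obtain ⟨N, hN, t, F, iF, iA, η, hη1, hη2, hη3, hη4⟩ := nullW K wq (fun i => ⟨_, hw i⟩)
    (fun l => f (e2.symm l)) (fun l => ⟨δ (e2.symm l), hf _⟩)
  have hη5 : ∀ i j, OnC (a j) (b j) (η i j) := fun i j => ⟨hη1 i j, by
    rw [← hev]; exact hη2 i j⟩
  have hη6 : ∀ i e, ev (f e) (η i) = 0 := fun i e => by
    have := hη3 i (e2 e)
    rwa [Equiv.symm_apply_apply] at this
  -- the generic point of the product of the other curves
  obtain ⟨W, iW, iWA, w, hwB, hwk⟩ := exists_generic (K := K) k (fun i => a (Fin.castSucc i))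
    (fun i => b (Fin.castSucc i))
  have hq : ∀ i, ∃ q : MvPolynomial (Fin k × Fin 3) K, (∃ σ, MH σ q) ∧
      ev q (fun j => η i (Fin.castSucc j)) = 0 ∧ ev q w ≠ 0 := by
    intro i
    by_contra hcon
    push Not at hcon
    have h1 := trdeg_le w (fun j => η i (Fin.castSucc j)) (fun j => (hwB j).1)
      (fun q hq hq0 => hcon q hq hq0)
    have h2 := hcod (F i) (η i) (fun j => hη5 i j) (hη6 i)
    have h3 : Algebra.trdeg K (IntermediateField.adjoin K
        (Set.range (fun p : Fin k × Fin 3 => η i (Fin.castSucc p.1) p.2))) ≤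
        Algebra.trdeg K (IntermediateField.adjoin K
        (Set.range (fun p : Fin (k + 1) × Fin 3 => η i p.1 p.2))) := by
      have hle : IntermediateField.adjoin K
          (Set.range (fun p : Fin k × Fin 3 => η i (Fin.castSucc p.1) p.2)) ≤
          IntermediateField.adjoin K
          (Set.range (fun p : Fin (k + 1) × Fin 3 => η i p.1 p.2)) := by
        refine IntermediateField.adjoin.mono K _ _ ?_
        rintro _ ⟨p, rfl⟩
        exact ⟨(Fin.castSucc p.1, p.2), rfl⟩
      exact trdeg_le_of_injective (IntermediateField.inclusion hle)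
        (IntermediateField.inclusion_injective hle)
    have h4 : (k : Cardinal) + 2 ≤ ((k + 1 : ℕ) : Cardinal) := by
      have h5 := (hwk.trans h1).trans h3
      have h6 := add_le_add_left h5 ((2 : ℕ) : Cardinal)
      push_cast at h6 h2 ⊢
      exact h6.trans h2
    have h7 : ((k + 2 : ℕ) : Cardinal) ≤ ((k + 1 : ℕ) : Cardinal) := by
      push_cast at h4 ⊢
      exact h4
    have h8 := Nat.cast_le.mp h7
    omega
  choose q hqσ hq0 hqw using hq
  choose τ hτ using hqσ
  have hg : MH (fun j => ∑ i, τ i j) (∏ i, q i) := MH_prod Finset.univ τ q (fun i _ => hτ i)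
  refine ⟨∏ i, q i, fun j => ∑ i, τ i j, hg, ?_, ?_⟩
  · refine topE _ _ (fun i => hd (Fin.castSucc i)) _ _ hg ⟨W, iW, iWA, w, hwB, ?_⟩
    have h1 : ev (∏ i, q i) w = ∏ i, ev (q i) w := by simp only [ev, map_prod]
    rw [h1]
    exact Finset.prod_ne_zero_iff.mpr (fun i _ => hqw i)
  · have h0 : ∀ i, ev (grn (fun j : Fin k => Fin.castSucc j) (∏ i, q i)) (η i) = 0 := by
      intro i
      rw [ev_grn]
      have h1 : ev (∏ i, q i) (fun j => η i (Fin.castSucc j)) =
          ∏ i', ev (q i') (fun j => η i (Fin.castSucc j)) := by simp only [ev, map_prod]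
      rw [h1]
      exact Finset.prod_eq_zero (Finset.mem_univ i) (hq0 i)
    have hG := MH_grn (fun j : Fin k => Fin.castSucc j) hg
    obtain ⟨A, M, hM, hAM⟩ := locW_null wq (fun j i => if i = j then 3 else 0) hw
      (fun l => f (e2.symm l)) (fun l => δ (e2.symm l)) (fun l => hf _) _ _ hG N
      (hη4 _ ⟨_, hG⟩ h0)
    refine ⟨N, M, A, hM, fun w' u v hu hv => ?_⟩
    have hB : ∀ j, OnC (a j) (b j) (snoc u v j) := by
      intro j
      refine Fin.lastCases ?_ (fun j => ?_) j
      · simpa [snoc] using hv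
      · simpa [snoc] using hu j
    have h1 := hAM K w' (snoc u v) (fun j => (hB j).1.ne_zero) (fun j => by
      rw [hev]; exact (hB j).2)
    rw [nvW_grn] at h1
    have h2 : (⨆ i, nvW w' (δ (e2.symm i)) (f (e2.symm i)) (snoc u v)) =
        ⨆ e, nvW w' (δ e) (f e) (snoc u v) :=
      Equiv.iSup_comp (g := fun e => nvW w' (δ e) (f e) (snoc u v)) e2.symm
    rw [h2] at h1
    have h3 : (fun l : Fin k => snoc u v (Fin.castSucc l)) = u := by
      funext l
      simp [snoc]
    rw [h3] at h1
    exact h1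

end Pool.Agent.Y20.VP
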