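import Pool.Agent.Y20.VP.Grp

/-!
# Several points of a fibre near a closed subset
-/

set_option autoImplicit false
set_option linter.unusedSectionVars false

open MvPolynomial Pool.Agent.TH954.X Pool.Agent.TH954.X.We Pool.Agent.TH954.V Pool.Agent.TH954.Y
  Pool.Agent.TH954.Y.RedL

namespace Pool.Agent.Y20.VP

theorem tuple : T_tuple := by
  classical
  intro K _ _ k a b hd E _ f δ hf L S hS d hdd Ξ _ Ω hΩ hΩ0
  set P : Finset (Fin (d + 1) × Fin (d + 1)) :=
    Finset.univ.filter (fun p : Fin (d + 1) × Fin (d + 1) => p.1 < p.2) with hP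
  -- the curves
  set a' : Fin k ⊕ Fin (d + 1) → K :=
    Sum.elim (fun i => a (Fin.castSucc i)) (fun _ => a (Fin.last k)) with ha'
  set b' : Fin k ⊕ Fin (d + 1) → K :=
    Sum.elim (fun i => b (Fin.castSucc i)) (fun _ => b (Fin.last k)) with hb'
  -- the groups of variables
  let ρ : Fin (d + 1) → Fin (k + 1) → Fin k ⊕ Fin (d + 1) := fun j i =>
    Fin.lastCases (motive := fun _ => Fin k ⊕ Fin (d + 1)) (Sum.inr j) (fun i => Sum.inl i) i
  let ρ2 : Fin (d + 1) × Fin (d + 1) → Fin 2 → Fin k ⊕ Fin (d + 1) := fun p =>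
    ![Sum.inr p.1, Sum.inr p.2]
  have hρ : ∀ {F : Type} (u : Fin k → Fin 3 → F) (Q : Fin (d + 1) → Fin 3 → F) (j : Fin (d + 1)),
      (fun l => (Sum.elim u Q : Fin k ⊕ Fin (d + 1) → Fin 3 → F) (ρ j l)) = snoc u (Q j) := by
    intro F u Q j
    funext l
    refine Fin.lastCases ?_ (fun i => ?_) l
    · simp [ρ, snoc]
    · simp [ρ, snoc]
  have hρ2 : ∀ {F : Type} (u : Fin k → Fin 3 → F) (Q : Fin (d + 1) → Fin 3 → F)
      (p : Fin (d + 1) × Fin (d + 1)),
      (fun l => (Sum.elim u Q : Fin k ⊕ Fin (d + 1) → Fin 3 → F) (ρ2 p l)) =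
        ![Q p.1, Q p.2] := by
    intro F u Q p
    funext l
    fin_cases l
    · rfl
    · rfl
  -- the forms
  let G : Fin (d + 1) × E → MvPolynomial ((Fin k ⊕ Fin (d + 1)) × Fin 3) K := fun p =>
    grn (ρ p.1) (f p.2)
  let T : (Fin L × E) × (P → Ξ) → MvPolynomial ((Fin k ⊕ Fin (d + 1)) × Fin 3) K := fun y =>
    grn (fun i : Fin k => Sum.inl i) (sec (S y.1.1) (f y.1.2)) *
      ∏ p : P, grn (ρ2 p.1) (Ω (y.2 p))
  let σ : (Fin L × E) × (P → Ξ) → Fin k ⊕ Fin (d + 1) → ℕ := fun y j =>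
    grd (fun i : Fin k => Sum.inl i) (fun i => δ y.1.2 (Fin.castSucc i)) j +
      ∑ p : P, grd (ρ2 p.1) (fun _ => 2) j
  have hT : ∀ y, MH (σ y) (T y) := fun y =>
    MH_mul (MH_grn _ (MH_sec _ (hf _))) (MH_prod Finset.univ _ _ (fun p _ => MH_grn _ (hΩ _)))
  obtain ⟨N, M, A, hN, hM, hloc⟩ := nullE a' b' G (fun p => grd (ρ p.1) (δ p.2))
    (fun p => MH_grn _ (hf _)) T σ hT (by
      intro F _ _ U hU hG y
      set u : Fin k → Fin 3 → F := fun i => U (Sum.inl i) with hu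
      set Q : Fin (d + 1) → Fin 3 → F := fun j => U (Sum.inr j) with hQ
      have hUe : U = Sum.elim u Q := by
        funext j
        cases j <;> rfl
      have hQon : ∀ j, OnC (a (Fin.last k)) (b (Fin.last k)) (Q j) := fun j => hU (Sum.inr j)
      have hz : ∀ j e, ev (f e) (snoc u (Q j)) = 0 := by
        intro j e
        have := hG (j, e)
        simp only [G] at this
        rw [ev_grn, hUe, hρ u Q j] at this
        exact this
      have hTy : ev (T y) U = ev (sec (S y.1.1) (f y.1.2)) u *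
          ∏ p : P, ev (Ω (y.2 p)) ![Q p.1.1, Q p.1.2] := by
        have h1 : ev (T y) U = ev (grn (fun i : Fin k => (Sum.inl i : Fin k ⊕ Fin (d + 1)))
            (sec (S y.1.1) (f y.1.2))) U * ∏ p : P, ev (grn (ρ2 p.1) (Ω (y.2 p))) U := by
          simp only [T, ev, map_mul, map_prod]
        rw [h1, ev_grn]
        congr 1
        refine Finset.prod_congr rfl (fun p _ => ?_)
        rw [ev_grn, hUe, hρ2 u Q p.1]
      rw [hTy]
      by_cases hinj : Function.Injective Q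
      · have h2 := all_zero (F' := F) (hd (Fin.last k)) (f y.1.2) (δ y.1.2) (hf _) u (d + 1) Q hinj
          hQon (fun j => hz j y.1.2) (hdd y.1.2) (fun c => algebraMap K F (S y.1.1 c))
          (onC_map (hS y.1.1).1) (by
            rw [Ne, map_eq_zero]
            exact (hS y.1.1).2)
        rw [ev_sec]
        have h3 : (fun i c => algebraMap F F (u i c)) = u := rfl
        rw [h3] at h2
        rw [h2, zero_mul]
      · have h4 : ∃ i j : Fin (d + 1), i < j ∧ Q i = Q j := by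
          unfold Function.Injective at hinj
          push Not at hinj
          obtain ⟨i, j, hij, hne⟩ := hinj
          rcases lt_or_gt_of_ne hne with h | h
          · exact ⟨i, j, h, hij⟩
          · exact ⟨j, i, h, hij.symm⟩
        obtain ⟨i, j, hij, hQij⟩ := h4
        refine mul_eq_zero_of_right _ (Finset.prod_eq_zero
          (Finset.mem_univ (⟨(i, j), Finset.mem_filter.mpr ⟨Finset.mem_univ _, hij⟩⟩ : P)) ?_)
        dsimp only
        rw [← hQij]
        exact hΩ0 F (Q i) (hQon i) _)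
  refine ⟨N, M, A, hM, fun w u Q hu hQ => ?_⟩
  have hU : ∀ j, OnC (a' j) (b' j) ((Sum.elim u Q : Fin k ⊕ Fin (d + 1) → Fin 3 → K) j) := by
    rintro (i | j)
    · exact hu i
    · exact hQ j
  have hmain := hloc w (Sum.elim u Q) hU
  have hrhs : (⨆ p : Fin (d + 1) × E, nvW w (grd (ρ p.1) (δ p.2)) (G p) (Sum.elim u Q)) =
      ⨆ p : Fin (d + 1) × E, nvW w (δ p.2) (f p.2) (snoc u (Q p.1)) := by
    congr 1
    funext p
    simp only [G]
    rw [nvW_grn, hρ u Q p.1]
  rw [hrhs] at hmain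
  have hlhs : ∀ y, nvW w (σ y) (T y) (Sum.elim u Q) =
      nvW w (fun i => δ y.1.2 (Fin.castSucc i)) (sec (S y.1.1) (f y.1.2)) u *
        ∏ p : P, nvW w (fun _ => 2) (Ω (y.2 p)) ![Q p.1.1, Q p.1.2] := by
    intro y
    simp only [T, σ]
    rw [nvW_mul, nvW_prod, nvW_grn]
    congr 1
    refine Finset.prod_congr rfl (fun p _ => ?_)
    rw [nvW_grn, hρ2 u Q p.1]
  have hR0 : 0 ≤ kap A M 1 w * ⨆ p : Fin (d + 1) × E, nvW w (δ p.2) (f p.2) (snoc u (Q p.1)) :=
    mul_nonneg (zero_le_one.trans (one_le_kap A hM 1 w))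
      (Real.iSup_nonneg fun i => nvW_nonneg _ _ _ _)
  by_cases h1 : IsEmpty (Fin L × E)
  · rw [Real.iSup_of_isEmpty, zero_pow hN.ne', zero_mul]
    exact hR0
  rw [not_isEmpty_iff] at h1
  obtain ⟨p0, hp0⟩ := exists_eq_ciSup_of_finite
    (f := fun p : Fin L × E => nvW w (fun i => δ p.2 (Fin.castSucc i)) (sec (S p.1) (f p.2)) u)
  have hprod : (∏ p ∈ P, ⨆ s, nvW w (fun _ => 2) (Ω s) ![Q p.1, Q p.2]) =
      ∏ p : P, ⨆ s, nvW w (fun _ => 2) (Ω s) ![Q p.1.1, Q p.1.2] :=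
    (Finset.prod_coe_sort P (fun p => ⨆ s, nvW w (fun _ => 2) (Ω s) ![Q p.1, Q p.2])).symm
  rw [hprod]
  by_cases h2 : Nonempty Ξ
  · have h3 : ∀ p : P, ∃ s, nvW w (fun _ => 2) (Ω s) ![Q p.1.1, Q p.1.2] =
        ⨆ s, nvW w (fun _ => 2) (Ω s) ![Q p.1.1, Q p.1.2] := fun p => exists_eq_ciSup_of_finite
    choose s hs using h3
    have h4 := hmain (p0, s)
    rw [hlhs] at h4
    simp only [hs] at h4
    rw [← hp0, ← mul_pow]
    exact h4
  · by_cases h5 : IsEmpty P
    · have h4 := hmain (p0, fun p => (h5.false p).elim)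
      rw [hlhs] at h4
      rw [← hp0, ← mul_pow]
      simp only [Finset.univ_eq_empty, Finset.prod_empty, mul_one] at h4 ⊢
      exact h4
    · rw [not_isEmpty_iff] at h5
      obtain ⟨p1⟩ := h5
      rw [not_nonempty_iff] at h2
      have h6 : (∏ p : P, ⨆ s, nvW w (fun _ => 2) (Ω s) ![Q p.1.1, Q p.1.2]) = 0 :=
        Finset.prod_eq_zero (Finset.mem_univ p1) (Real.iSup_of_isEmpty _)
      rw [h6, zero_pow hN.ne', mul_zero]
      exact hR0

end Pool.Agent.Y20.VP
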