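import Pool.Agent.Y20.VP.Om
import Pool.Agent.Y20.VP.Tuple
import Pool.Agent.TH954.Y.Pack
import Pool.Agent.TH954.Y.Low
import Pool.Agent.TH954.Y.Comb
import Pool.Agent.TH954.Y.Fin1

/-!
# Subgroups of elliptic curves, and the number of bad points at one scale
-/

set_option autoImplicit false
set_option linter.unusedSectionVars false

open MvPolynomial Pool.Agent.TH954.X Pool.Agent.TH954.X.We Pool.Agent.TH954.V Pool.Agent.TH954.Y
  Pool.Agent.TH954.Y.RedL NumberField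

namespace Pool.Agent.Y20.VP

section

variable {K : Type} [Field K] [NumberField K]

/-- the coordinate vectors of the points of a subgroup -/
def HS {a b : K} [DecidableEq K] (Γ : AddSubgroup (curve a b).toAffine.Point) :
    Set (Fin 3 → K) := {v | ∃ P ∈ Γ, coords P = v}

lemma HS_ball {a b : K} [DecidableEq K] (Γ : AddSubgroup (curve a b).toAffine.Point) (T : ℝ) :
    {v | v ∈ HS Γ ∧ Height.logHeight v ≤ T} =
      coords '' {P | P ∈ Γ ∧ Height.logHeight (coords P) ≤ T} := by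
  ext v
  constructor
  · rintro ⟨⟨P, hP, rfl⟩, h⟩
    exact ⟨P, ⟨hP, h⟩, rfl⟩
  · rintro ⟨P, ⟨hP, h⟩, rfl⟩
    exact ⟨⟨P, hP, rfl⟩, h⟩

lemma HS_ncard {a b : K} [DecidableEq K] (Γ : AddSubgroup (curve a b).toAffine.Point) (T : ℝ) :
    {v | v ∈ HS Γ ∧ Height.logHeight v ≤ T}.ncard =
      {P | P ∈ Γ ∧ Height.logHeight (coords P) ≤ T}.ncard := by
  rw [HS_ball]
  exact Set.ncard_image_of_injective _ coords_inj

theorem good_of [DecidableEq K] (a b : K) (hd : 4 * a ^ 3 + 27 * b ^ 2 ≠ 0)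
    (Γ : AddSubgroup (curve a b).toAffine.Point) :
    Good a b (HS Γ) (Module.finrank ℤ Γ) := by
  classical
  obtain ⟨⟨C, hC⟩, C2, hC2⟩ := pack K a b hd Γ
  obtain ⟨Ω, hΩ, hΩ0, C3, hC3⟩ := om K a b hd
  refine ⟨?_, ?_, ?_, ?_⟩
  · rintro v ⟨P, -, rfl⟩
    exact ⟨coords_normed P, coords_eqn a b (F := K) P 0⟩
  · refine ⟨C, fun T hT => ?_⟩
    obtain ⟨h1, h2⟩ := hC T hT
    rw [HS_ncard]
    refine ⟨?_, h2⟩
    rw [HS_ball]
    exact h1.image _
  · refine ⟨Fin 3 × Fin 2, inferInstance, Ω, hΩ, hΩ0, C2 + C3, fun ρ hρ => ?_⟩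
    obtain ⟨N, hN⟩ := hC2 ρ hρ
    refine ⟨N, fun T hT => ?_⟩
    obtain ⟨col, hcol⟩ := hN T hT
    refine ⟨fun v => if h : ∃ P : (curve a b).toAffine.Point, coords P = v then
      col h.choose else col 0, ?_⟩
    rintro _ ⟨P, hP, rfl⟩ _ ⟨Q, hQ, rfl⟩ h1 h2 h3 h4
    have hPe : ∃ P' : (curve a b).toAffine.Point, coords P' = coords P := ⟨P, rfl⟩
    have hQe : ∃ P' : (curve a b).toAffine.Point, coords P' = coords Q := ⟨Q, rfl⟩
    have e1 : hPe.choose = P := coords_inj hPe.choose_spec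
    have e2 : hQe.choose = Q := coords_inj hQe.choose_spec
    simp only [dif_pos hPe, dif_pos hQe, e1, e2] at h3
    have hne : P ≠ Q := fun h => h4 (by rw [h])
    obtain ⟨h5, h6, h7⟩ := hC3 P Q hne
    refine ⟨h5, h6, h7.trans ?_⟩
    have h8 := hcol P hP Q hQ h1 h2 h3
    linarith
  · intro hr L
    obtain ⟨c, hc, hlow⟩ := low K a b hd Γ
    have hr' : 0 < ((Module.finrank ℤ Γ : ℝ) / 2) := by
      have : 0 < (Module.finrank ℤ Γ : ℝ) := by exact_mod_cast Nat.pos_of_ne_zero hr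
      positivity
    obtain ⟨T, hT1, hT⟩ : ∃ T : ℝ, 1 ≤ T ∧ ((L : ℝ) + 1) / c ≤ T ^ ((Module.finrank ℤ Γ : ℝ) / 2) := by
      have := tendsto_rpow_atTop hr'
      have h1 := (this.eventually_ge_atTop (((L : ℝ) + 1) / c)).and
        (Filter.eventually_ge_atTop (1 : ℝ))
      obtain ⟨T, hT⟩ := h1.exists
      exact ⟨T, hT.2, hT.1⟩
    have h2 := hlow T hT1
    have h3 : ((L : ℝ) + 1) ≤ c * T ^ ((Module.finrank ℤ Γ : ℝ) / 2) := by
      rw [div_le_iff₀ hc] at hT
      linarith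
    have h4 : L + 1 ≤ {P | P ∈ Γ ∧ Height.logHeight (coords P) ≤ T}.ncard := by
      exact_mod_cast h3.trans h2
    obtain ⟨h5, -⟩ := hC T hT1
    set Z : Finset (curve a b).toAffine.Point := (h5.toFinset).erase 0 with hZ
    have h6 : L ≤ Z.card := by
      have h7 : h5.toFinset.card - 1 ≤ Z.card := Finset.pred_card_le_card_erase
      rw [← Set.ncard_eq_toFinset_card _ h5] at h7
      omega
    obtain ⟨Z', hZ', hcard⟩ := Finset.exists_subset_card_eq h6
    set e := Z'.equivFinOfCardEq hcard with he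
    refine ⟨fun l => coords (e.symm l).1, ?_, fun l => ⟨⟨coords_normed _,
      coords_eqn a b (F := K) _ 0⟩, ?_⟩⟩
    · intro l l' h
      exact e.symm.injective (Subtype.ext (coords_inj h))
    · have h8 : (e.symm l).1 ≠ 0 := (Finset.mem_erase.mp (hZ' (e.symm l).2)).1
      rcases hR : (e.symm l).1 with _ | ⟨x, y, hxy⟩
      · exact absurd hR h8
      · change coords (e.symm l).1 0 ≠ 0
        rw [hR]
        exact one_ne_zero

end

end Pool.Agent.Y20.VP
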