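import Pool.Agent.Y20.VP.Zdim
import Pool.Agent.TH954.Y.Red

/-!
# Substitution of groups of variables, products of forms, and a local Nullstellensatz
-/

set_option autoImplicit false
set_option linter.unusedSectionVars false

open MvPolynomial Pool.Agent.TH954.X Pool.Agent.TH954.X.We Pool.Agent.TH954.V Pool.Agent.TH954.Y
  Pool.Agent.TH954.Y.RedL

namespace Pool.Agent.Y20.VP

section grn

variable {K : Type} [Field K] {κ ι : Type} [Fintype κ] [Fintype ι] [DecidableEq ι] {n : ℕ}

/-- substitution of groups of variables -/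
noncomputable def grn (ρ : κ → ι) (f : MvPolynomial (κ × Fin n) K) :
    MvPolynomial (ι × Fin n) K := cmp f (fun l c => X (ρ l, c))

/-- the multidegree after the substitution -/
def grd (ρ : κ → ι) (d : κ → ℕ) : ι → ℕ := fun i => ∑ l, d l * (if i = ρ l then 1 else 0)

lemma MH_grn (ρ : κ → ι) {f : MvPolynomial (κ × Fin n) K} {d : κ → ℕ} (hf : MH d f) :
    MH (grd ρ d) (grn ρ f) :=
  MH_cmp hf _ (fun l i => if i = ρ l then 1 else 0) (fun l c => MH_var (ρ l) c)

lemma ev_grn {F : Type} [Field F] [Algebra K F] (ρ : κ → ι) (f : MvPolynomial (κ × Fin n) K)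
    (u : ι → Fin n → F) : ev (grn ρ f) u = ev f (fun l => u (ρ l)) := by
  unfold grn
  rw [ev_cmp]
  congr 1
  funext l c
  unfold ev
  rw [aeval_X]

lemma nvW_grn (ρ : κ → ι) (w : AbsoluteValue K ℝ) (d : κ → ℕ) (f : MvPolynomial (κ × Fin n) K)
    (u : ι → Fin n → K) : nvW w (grd ρ d) (grn ρ f) u = nvW w d f (fun l => u (ρ l)) := by
  unfold nvW grd
  rw [ev_grn]
  congr 1
  simp_rw [← Finset.prod_pow_eq_pow_sum]
  rw [Finset.prod_comm]
  refine Finset.prod_congr rfl (fun l _ => ?_)
  rw [Finset.prod_eq_single (ρ l)]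
  · simp
  · intro i _ hi
    simp [hi]
  · simp

end grn

section mul

variable {K : Type} [Field K] {ι : Type} [Fintype ι] {n : ℕ}

lemma nvW_mul (w : AbsoluteValue K ℝ) (σ τ : ι → ℕ) (f g : MvPolynomial (ι × Fin n) K)
    (u : ι → Fin n → K) :
    nvW w (fun j => σ j + τ j) (f * g) u = nvW w σ f u * nvW w τ g u := by
  unfold nvW
  have h : ev (f * g) u = ev f u * ev g u := by simp only [ev, map_mul]
  rw [h, w.map_mul]
  simp_rw [pow_add]
  rw [Finset.prod_mul_distrib, mul_div_mul_comm]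

lemma nvW_prod {α : Type} (s : Finset α) (w : AbsoluteValue K ℝ) (σ : α → ι → ℕ)
    (f : α → MvPolynomial (ι × Fin n) K) (u : ι → Fin n → K) :
    nvW w (fun j => ∑ a ∈ s, σ a j) (∏ a ∈ s, f a) u = ∏ a ∈ s, nvW w (σ a) (f a) u := by
  classical
  induction s using Finset.induction_on with
  | empty => simp [nvW, ev]
  | insert a s ha ih =>
    rw [Finset.prod_insert ha, Finset.prod_insert ha, ← ih, ← nvW_mul]
    congr 1
    funext j
    rw [Finset.sum_insert ha]

end mul

section null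

variable {K : Type} [Field K] {ι : Type} [Fintype ι] [DecidableEq ι]

/-- the equation of the curve in the group `j` -/
noncomputable def ceqG (a b : ι → K) (j : ι) : MvPolynomial (ι × Fin 3) K :=
  rename (fun c => (j, c)) (eqn (a j) (b j) 0)

lemma eqn_hom (a b : K) : (eqn a b 0).IsHomogeneous 3 := by
  unfold eqn
  refine IsHomogeneous.sub ?_ (IsHomogeneous.add (IsHomogeneous.add ?_ ?_) ?_)
  · exact ((isHomogeneous_X K (2 : Fin 3)).pow 2).mul (isHomogeneous_X K (0 : Fin 3))
  · exact (isHomogeneous_X K (1 : Fin 3)).pow 3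
  · exact ((isHomogeneous_C (Fin 3) a).mul (isHomogeneous_X K (1 : Fin 3))).mul
      ((isHomogeneous_X K (0 : Fin 3)).pow 2)
  · exact (isHomogeneous_C (Fin 3) b).mul ((isHomogeneous_X K (0 : Fin 3)).pow 3)

lemma rename_MHG {n : ℕ} {f : MvPolynomial (Fin n) K} {D : ℕ} (hf : f.IsHomogeneous D) (i : ι) :
    MH (fun j => if j = i then D else 0) (rename (fun c : Fin n => (i, c)) f) := by
  classical
  intro m hm j
  have hinj : Function.Injective
      (fun c : Fin n => (i, c)) := fun a b h => (Prod.ext_iff.mp h).2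
  rw [support_rename_of_injective hinj] at hm
  obtain ⟨m', hm', rfl⟩ := Finset.mem_image.mp hm
  change _ = if j = i then D else 0
  split_ifs with h
  · subst h
    have h1 : ∀ c, (Finsupp.mapDomain (fun c => (j, c)) m')
        (j, c) = m' c := fun c =>
      Finsupp.mapDomain_apply hinj m' c
    simp_rw [h1]
    have h2 := hf (mem_support_iff.mp hm')
    rw [← h2, Finsupp.weight_apply, Finsupp.sum_fintype _ _ (by simp)]
    simp
  · refine Finset.sum_eq_zero (fun c _ => ?_)
    refine Finsupp.mapDomain_of_notMem_range _ _ ?_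
    rintro ⟨c', hc'⟩
    exact h (Prod.ext_iff.mp hc').1.symm

/-- **Local Nullstellensatz on products of elliptic curves.** If each of the forms `T y` vanishes at
all common zeros of the forms `f` on the product, then it is bounded by them at all places. -/
theorem nullE (a b : ι → K) {E Y : Type} [Fintype E] [Fintype Y]
    (f : E → MvPolynomial (ι × Fin 3) K) (δ : E → ι → ℕ) (hf : ∀ e, MH (δ e) (f e))
    (T : Y → MvPolynomial (ι × Fin 3) K) (σ : Y → ι → ℕ) (hT : ∀ y, MH (σ y) (T y))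
    (hv : ∀ (F : Type) [Field F] [Algebra K F] (u : ι → Fin 3 → F),
      (∀ j, OnC (a j) (b j) (u j)) → (∀ e, ev (f e) u = 0) → ∀ y, ev (T y) u = 0) :
    ∃ (N M : ℕ) (A : Finset K), 0 < N ∧ 1 ≤ M ∧ ∀ (w : AbsoluteValue K ℝ) (u : ι → Fin 3 → K),
      (∀ j, OnC (a j) (b j) (u j)) → ∀ y,
      nvW w (σ y) (T y) u ^ N ≤ kap A M 1 w * ⨆ e, nvW w (δ e) (f e) u := by
  classical
  set wq : ι → MvPolynomial (ι × Fin 3) K := fun j => ceqG a b j with hwq
  have hw : ∀ j, MH (fun i => if i = j then 3 else 0) (wq j) := fun j =>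
    rename_MHG (eqn_hom _ _) j
  have hev : ∀ {F : Type} [Field F] [Algebra K F] (u : ι → Fin 3 → F) (j : ι),
      ev (wq j) u = aeval (u j) (eqn (a j) (b j) 0) := by
    intro F _ _ u j
    unfold ev
    rw [hwq]
    simp only [ceqG]
    rw [aeval_rename]
    rfl
  set e2 := Fintype.equivFin E with he2
  obtain ⟨N, hN, t, F, iF, iA, η, hη1, hη2, hη3, hη4⟩ := nullW K wq (fun i => ⟨_, hw i⟩)
    (fun l => f (e2.symm l)) (fun l => ⟨δ (e2.symm l), hf _⟩)
  have hη5 : ∀ i j, OnC (a j) (b j) (η i j) := fun i j => ⟨hη1 i j, by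
    rw [← hev]; exact hη2 i j⟩
  have hη6 : ∀ y i, ev (T y) (η i) = 0 := fun y i => hv (F i) (η i) (hη5 i) (fun e => by
    have := hη3 i (e2 e)
    rwa [Equiv.symm_apply_apply] at this) y
  have key := fun y => locW_null wq (fun j i => if i = j then 3 else 0) hw
    (fun l => f (e2.symm l)) (fun l => δ (e2.symm l)) (fun l => hf _) (T y) (σ y) (hT y) N
    (hη4 (T y) ⟨_, hT y⟩ (hη6 y))
  choose A M hM hAM using key
  refine ⟨N, (∑ l, M l) + 1, Finset.univ.biUnion A, hN, Nat.succ_pos _, fun w u hu y => ?_⟩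
  have hsup0 : 0 ≤ ⨆ e, nvW w (δ e) (f e) u := Real.iSup_nonneg fun i => nvW_nonneg _ _ _ _
  have h1 := hAM y K w u (fun j => (hu j).1.ne_zero) (fun j => by rw [hev]; exact (hu j).2)
  have h2 : (⨆ i, nvW w (δ (e2.symm i)) (f (e2.symm i)) u) = ⨆ e, nvW w (δ e) (f e) u :=
    Equiv.iSup_comp (g := fun e => nvW w (δ e) (f e) u) e2.symm
  rw [h2] at h1
  refine h1.trans (mul_le_mul_of_nonneg_right (kap_mono ?_ ?_ w) hsup0)
  · exact Finset.subset_biUnion_of_mem A (Finset.mem_univ y)
  · exact (Finset.single_le_sum (f := M) (fun _ _ => Nat.zero_le _)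
      (Finset.mem_univ y)).trans (Nat.le_succ _)

end null

end Pool.Agent.Y20.VP
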