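import Pool.Agent.Y20.VP.GoodSub

/-!
# The number of exceptional points
-/

set_option autoImplicit false
set_option linter.unusedSectionVars false

open MvPolynomial Pool.Agent.TH954.X Pool.Agent.TH954.X.We Pool.Agent.TH954.V Pool.Agent.TH954.Y
  Pool.Agent.TH954.Y.RedL NumberField

namespace Pool.Agent.Y20.VP

/-- sets of size `O (T ^ e)` -/
def Bd {γ : Type} (X : ℝ → Set γ) (e : ℝ) : Prop :=
  ∃ C : ℝ, ∀ T, 1 ≤ T → (X T).Finite ∧ ((X T).ncard : ℝ) ≤ C * T ^ e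

lemma Bd.union {γ : Type} {X Y : ℝ → Set γ} {e : ℝ} (hX : Bd X e) (hY : Bd Y e) :
    Bd (fun T => X T ∪ Y T) e := by
  obtain ⟨C1, h1⟩ := hX
  obtain ⟨C2, h2⟩ := hY
  refine ⟨C1 + C2, fun T hT => ⟨(h1 T hT).1.union (h2 T hT).1, ?_⟩⟩
  have h3 : ((X T ∪ Y T).ncard : ℝ) ≤ (X T).ncard + (Y T).ncard := by
    exact_mod_cast Set.ncard_union_le (X T) (Y T)
  refine le_trans h3 ?_
  rw [add_mul]
  exact add_le_add (h1 T hT).2 (h2 T hT).2

lemma Bd.empty {γ : Type} (e : ℝ) : Bd (fun _ => (∅ : Set γ)) e :=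
  ⟨0, fun T _ => ⟨Set.finite_empty, by simp⟩⟩

lemma Bd.biUnion {γ α : Type} (s : Finset α) (X : α → ℝ → Set γ) {e : ℝ}
    (h : ∀ a ∈ s, Bd (X a) e) : Bd (fun T => ⋃ a ∈ s, X a T) e := by
  classical
  induction s using Finset.induction_on with
  | empty => simpa using Bd.empty e
  | insert a s ha ih =>
    have h1 := (h a (Finset.mem_insert_self _ _)).union
      (ih (fun b hb => h b (Finset.mem_insert_of_mem hb)))
    simpa only [Finset.set_biUnion_insert] using h1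

lemma Bd.mono {γ : Type} {X Y : ℝ → Set γ} {e : ℝ} (hY : Bd Y e)
    (h : ∀ T, 1 ≤ T → X T ⊆ Y T) : Bd X e := by
  obtain ⟨C, hC⟩ := hY
  refine ⟨C, fun T hT => ⟨(hC T hT).1.subset (h T hT), ?_⟩⟩
  refine le_trans ?_ (hC T hT).2
  exact_mod_cast Set.ncard_le_ncard (h T hT) (hC T hT).1

/-- summation over the scales -/
lemma dyadic {γ : Type} (X : ℝ → Set γ) {e : ℝ} (he : 0 < e) (hX : Bd X e) (F0 : Set γ)
    (hF0 : F0.Finite) (c : ℝ) (hc : 1 ≤ c) (Y : ℝ → Set γ)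
    (hY : ∀ T, 1 ≤ T → ∀ y ∈ Y T, y ∈ F0 ∨ ∃ j : ℕ, (2 : ℝ) ^ j ≤ c * T ∧ y ∈ X (2 ^ j)) :
    Bd Y e := by
  classical
  obtain ⟨C, hC⟩ := hX
  have hC0 : 0 ≤ C := by
    have h1 := (hC 1 le_rfl).2
    rw [Real.one_rpow, mul_one] at h1
    exact le_trans (Nat.cast_nonneg _) h1
  set q : ℝ := (2 : ℝ) ^ e with hq
  have hq1 : 1 < q := Real.one_lt_rpow (by norm_num) he
  refine ⟨F0.ncard + C * (q / (q - 1)) * c ^ e, fun T hT => ?_⟩
  have hT0 : 0 < T := one_pos.trans_le hT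
  have hcT : 1 ≤ c * T := by nlinarith
  set J : ℕ := Nat.log 2 ⌊c * T⌋₊ with hJ
  have hfl : ⌊c * T⌋₊ ≠ 0 := by
    rw [Ne, Nat.floor_eq_zero, not_lt]
    exact hcT
  have hsub : Y T ⊆ F0 ∪ ⋃ j ∈ Finset.range (J + 1), X (2 ^ j) := by
    intro y hy
    rcases hY T hT y hy with h | ⟨j, hj, hyj⟩
    · exact Or.inl h
    · right
      rw [Set.mem_iUnion₂]
      refine ⟨j, ?_, hyj⟩
      rw [Finset.mem_range, Nat.lt_succ_iff, hJ]
      refine Nat.le_log_of_pow_le (by norm_num) ?_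
      refine Nat.le_floor ?_
      push_cast
      exact hj
  have hone : ∀ j : ℕ, (1 : ℝ) ≤ 2 ^ j := fun j => one_le_pow₀ (by norm_num)
  have hfin : (F0 ∪ ⋃ j ∈ Finset.range (J + 1), X (2 ^ j)).Finite := by
    refine hF0.union (Set.Finite.biUnion (Finset.finite_toSet _) (fun j _ => (hC _ (hone j)).1))
  refine ⟨hfin.subset hsub, ?_⟩
  have h1 : ((Y T).ncard : ℝ) ≤ F0.ncard + ∑ j ∈ Finset.range (J + 1),
      ((X (2 ^ j)).ncard : ℝ) := by
    have h2 : (Y T).ncard ≤ F0.ncard + ∑ j ∈ Finset.range (J + 1), (X (2 ^ j)).ncard := by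
      refine (Set.ncard_le_ncard hsub hfin).trans ((Set.ncard_union_le _ _).trans ?_)
      refine Nat.add_le_add_left ?_ _
      exact Finset.set_ncard_biUnion_le _ _
    exact_mod_cast h2
  have h3 : ∑ j ∈ Finset.range (J + 1), ((X (2 ^ j)).ncard : ℝ) ≤
      ∑ j ∈ Finset.range (J + 1), C * q ^ j := by
    refine Finset.sum_le_sum (fun j _ => ?_)
    refine (hC _ (hone j)).2.trans (le_of_eq ?_)
    rw [hq, ← Real.rpow_natCast ((2 : ℝ) ^ e) j, ← Real.rpow_mul (by norm_num), mul_comm e,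
      Real.rpow_mul (by norm_num), Real.rpow_natCast]
  have h4 : ∑ j ∈ Finset.range (J + 1), C * q ^ j ≤ C * (q / (q - 1)) * c ^ e * T ^ e := by
    rw [← Finset.mul_sum, geom_sum_eq hq1.ne']
    have h5 : q ^ J ≤ (c * T) ^ e := by
      rw [hq, ← Real.rpow_natCast ((2 : ℝ) ^ e) J, ← Real.rpow_mul (by norm_num), mul_comm e,
        Real.rpow_mul (by norm_num), Real.rpow_natCast]
      refine Real.rpow_le_rpow (by positivity) ?_ he.le
      have h6 : (2 : ℕ) ^ J ≤ ⌊c * T⌋₊ := Nat.pow_log_le_self 2 hfl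
      have h7 : ((2 : ℝ) ^ J) ≤ (⌊c * T⌋₊ : ℝ) := by exact_mod_cast h6
      exact h7.trans (Nat.floor_le (by positivity))
    have hq0 : 0 < q - 1 := by linarith
    have h8 : (q ^ (J + 1) - 1) / (q - 1) ≤ q / (q - 1) * (c * T) ^ e := by
      rw [div_mul_eq_mul_div]
      refine div_le_div_of_nonneg_right ?_ hq0.le
      rw [pow_succ]
      nlinarith
    rw [Real.mul_rpow (by linarith) hT0.le] at h8
    calc C * ((q ^ (J + 1) - 1) / (q - 1)) ≤ C * (q / (q - 1) * (c ^ e * T ^ e)) :=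
          mul_le_mul_of_nonneg_left h8 hC0
      _ = _ := by ring
  have h9 : (F0.ncard : ℝ) ≤ F0.ncard * T ^ e := by
    have : (1 : ℝ) ≤ T ^ e := Real.one_le_rpow hT he.le
    have h0 : (0 : ℝ) ≤ F0.ncard := Nat.cast_nonneg _
    nlinarith
  calc ((Y T).ncard : ℝ) ≤ F0.ncard + ∑ j ∈ Finset.range (J + 1), ((X (2 ^ j)).ncard : ℝ) := h1
    _ ≤ F0.ncard * T ^ e + C * (q / (q - 1)) * c ^ e * T ^ e := add_le_add h9 (h3.trans h4)
    _ = _ := by ring

section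

variable {K : Type} [Field K] [NumberField K] [DecidableEq K]

theorem main {n : ℕ} (hn : 3 ≤ n) {k : ℕ} (hk : 2 ≤ k) (a b : Fin k → K)
    (hd : ∀ i, 4 * a i ^ 3 + 27 * b i ^ 2 ≠ 0)
    (Γ : ∀ i, AddSubgroup (curve (a i) (b i)).toAffine.Point) (m : ℕ) (hm : 1 ≤ m)
    (hr : ∀ i, m ≤ Module.finrank ℤ (Γ i))
    {E1 E2 E3 : Type} [Fintype E1] [Fintype E2] [Fintype E3]
    (g : E1 → MvPolynomial (Option (Fin k) × Fin n) K) (hg : ∀ i, ∃ γ, MH γ (g i))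
    (f2 : E2 → MvPolynomial (Option (Fin k) × Fin n) K) (δ2 : E2 → Option (Fin k) → ℕ)
    (hf2 : ∀ i, MH (δ2 i) (f2 i))
    (f3 : E3 → MvPolynomial (Option (Fin k) × Fin n) K) (δ3 : E3 → Option (Fin k) → ℕ)
    (hf3 : ∀ i, MH (δ3 i) (f3 i))
    (hc2 : ∀ (F : Type) [Field F] [Algebra K F] (t : Fin n → F) (u : Fin k → Fin 3 → F), t ≠ 0 →
      OnB a b u → (∀ i, ev (g i) (ful t u) = 0) → (∀ i, ev (f2 i) (ful t u) = 0) →
      Algebra.trdeg K (IntermediateField.adjoin K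
        (Set.range (fun p : Fin k × Fin 3 => u p.1 p.2))) + ((2 : ℕ) : Cardinal) ≤ (k : Cardinal))
    (hc3 : ∀ (F : Type) [Field F] [Algebra K F] (t : Fin n → F) (u : Fin k → Fin 3 → F), t ≠ 0 →
      OnB a b u → (∀ i, ev (g i) (ful t u) = 0) → (∀ i, ev (f3 i) (ful t u) = 0) →
      Algebra.trdeg K (IntermediateField.adjoin K
        (Set.range (fun p : Fin k × Fin 3 => u p.1 p.2))) + ((1 : ℕ) : Cardinal) ≤ (k : Cardinal))
    (S1 : Finset (InfinitePlace K)) (S2 : Finset (FinitePlace K)) (ε : ℝ) (hε : 0 < ε) :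
    Bd (fun T => BadX g f2 δ2 f3 δ3 S1 S2 (fun i => HS (Γ i)) ε T)
      ((∑ i, (Module.finrank ℤ (Γ i) : ℝ) - m) / 2) := by
  classical
  obtain ⟨s2, h2, η2, hη2, hcod2, N2, M2, A2, hM2, hl2⟩ :=
    red K k n hn a b E1 E2 g hg f2 δ2 hf2 2 hc2
  obtain ⟨s3, h3, η3, hη3, hcod3, N3, M3, A3, hM3, hl3⟩ :=
    red K k n hn a b E1 E3 g hg f3 δ3 hf3 1 hc3
  have hgood : ∀ i, Good (a i) (b i) (HS (Γ i)) (Module.finrank ℤ (Γ i)) := fun i =>
    good_of (a i) (b i) (hd i) (Γ i)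
  set w1 : AbsoluteValue K ℝ := ai (Classical.arbitrary (InfinitePlace K)) with hw1
  obtain ⟨ε2, hε2, ε3, hε3, T1, hscale⟩ := scale h2 η2 h3 η3 hn g f2 δ2 hf2 f3 δ3 hη2 a b hM2 hl2
    hM3 hl3 S1 S2 (fun i => HS (Γ i)) (fun i => (hgood i).on) w1 ε hε
  set e : ℝ := (∑ i, (Module.finrank ℤ (Γ i) : ℝ) - m) / 2 with he
  have he0 : 0 < e := by
    have h4 : ∑ _i : Fin k, (m : ℝ) ≤ ∑ i, (Module.finrank ℤ (Γ i) : ℝ) :=
      Finset.sum_le_sum (fun i _ => by exact_mod_cast hr i)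
    rw [Finset.sum_const, Finset.card_univ, Fintype.card_fin, nsmul_eq_mul] at h4
    have h5 : (2 : ℝ) ≤ k := by exact_mod_cast hk
    have h6 : (1 : ℝ) ≤ m := by exact_mod_cast hm
    have h7 : (2 : ℝ) * m ≤ k * m := mul_le_mul_of_nonneg_right h5 (by linarith)
    rw [he]
    linarith
  have hB1 : ∀ w : AbsoluteValue K ℝ, IsPl w →
      Bd (fun T => Bad1 w η3 h3 (fun i => HS (Γ i)) ε3 T) e := fun w hw =>
    thmB tuple zdim w hw m hm k a b hd _ _ hgood hr (Fin s3) h3 η3 hη3 hcod3 ε3 hε3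
  have hB2 : Bd (fun T => Bad2 η2 h2 (fun i => HS (Γ i)) ε2 T) e :=
    thmA tuple zdim gform comb m hm k a b hd _ _ hgood hr (Fin s2) h2 η2 hη2 hcod2 ε2 hε2
  have hX := hB2.union ((hB1 w1 (Or.inr ⟨_, rfl⟩)).union
    ((Bd.biUnion S1 (fun v T => Bad1 (ai v) η3 h3 (fun i => HS (Γ i)) ε3 T)
      (fun v _ => hB1 _ (Or.inr ⟨v, rfl⟩))).union
    (Bd.biUnion S2 (fun v T => Bad1 (av v) η3 h3 (fun i => HS (Γ i)) ε3 T)
      (fun v _ => hB1 _ (Or.inl ⟨v, rfl⟩)))))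
  obtain ⟨C4, -, hC4⟩ := box_bd a b (fun i => HS (Γ i)) _ hgood
  set T2 : ℝ := max T1 1 with hT2
  refine dyadic _ he0 hX (Box (fun i => HS (Γ i)) T2) (hC4 T2 (le_max_right _ _)).1 (2 * k) ?_ _ ?_
  · have h5 : (2 : ℝ) ≤ k := by exact_mod_cast hk
    linarith
  · intro T hT u hu
    have huB : u ∈ Box (fun i => HS (Γ i)) T := hu.1
    have hn0 : ∀ i, 0 ≤ Height.logHeight (u i) := fun i => Height.logHeight_nonneg _
    set h : ℝ := ∑ i, Height.logHeight (u i) with hh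
    have hle : ∀ i, Height.logHeight (u i) ≤ h := fun i =>
      Finset.single_le_sum (f := fun i => Height.logHeight (u i)) (fun i _ => hn0 i)
        (Finset.mem_univ i)
    rcases le_or_gt h T2 with h4 | h4
    · left
      exact fun i => ⟨(huB i).1, (hle i).trans h4⟩
    · right
      have h5 : 1 ≤ h := (le_max_right _ _).trans h4.le
      obtain ⟨j, hj1, hj2⟩ := exists_nat_pow_near h5 (one_lt_two : (1 : ℝ) < 2)
      refine ⟨j + 1, ?_, ?_⟩
      · have h6 : h ≤ k * T := by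
          have h7 : h ≤ ∑ _i : Fin k, T := Finset.sum_le_sum (fun i _ => (huB i).2)
          rw [Finset.sum_const, Finset.card_univ, Fintype.card_fin, nsmul_eq_mul] at h7
          exact h7
        rw [pow_succ]
        linarith
      · refine hscale (2 ^ (j + 1)) T ((le_max_left _ _).trans (h4.le.trans hj2.le))
          (one_le_pow₀ (by norm_num)) u hu (fun i => ⟨(huB i).1, (hle i).trans hj2.le⟩) ?_
        rw [pow_succ]
        linarith

end

end Pool.Agent.Y20.VP
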