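import Pool.Agent.Y20.VP.Gform
import Pool.Agent.TH954.X2.WLam

/-!
# Forms defining the diagonal, and the height of the difference of two points
-/

set_option autoImplicit false
set_option linter.unusedSectionVars false

open MvPolynomial Pool.Agent.TH954.X Pool.Agent.TH954.X.We Pool.Agent.TH954.V Pool.Agent.TH954.Y
  Pool.Agent.TH954.Y.RedL NumberField

namespace Pool.Agent.Y20.VP

/-- the value of one matrix entry -/
lemma nvW_lam {K : Type} [Field K] (w : AbsoluteValue K ℝ)
    (Λ : Fin 3 → Fin 3 → MvPolynomial (Fin 2 × Fin 3) K) (p q x y : Fin 3 → K) (s : K)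
    (h : ∀ i j, ev (Λ i j) ![p, q] = s * (x i * y j)) (i j : Fin 3) :
    nvW w (fun _ => 2) (Λ i j) ![p, q] =
      (w s / ((⨆ c, w (p c)) ^ 2 * (⨆ c, w (q c)) ^ 2)) * (w (x i) * w (y j)) := by
  unfold nvW
  rw [h, w.map_mul, w.map_mul, Fin.prod_univ_two]
  simp only [Matrix.cons_val_zero, Matrix.cons_val_one]
  ring

/-- the supremum of products -/
lemma iSup_prod {α β : Type} [Finite α] [Finite β] [Nonempty α] [Nonempty β] (f : α → ℝ)
    (g : β → ℝ) (hf : ∀ i, 0 ≤ f i) (hg : ∀ j, 0 ≤ g j) (c : ℝ) (hc : 0 ≤ c) :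
    (⨆ s : α × β, c * (f s.1 * g s.2)) = c * ((⨆ i, f i) * ⨆ j, g j) := by
  apply le_antisymm
  · refine ciSup_le (fun s => ?_)
    refine mul_le_mul_of_nonneg_left ?_ hc
    exact mul_le_mul (le_ciSup (Set.finite_range f).bddAbove s.1)
      (le_ciSup (Set.finite_range g).bddAbove s.2) (hg _)
      ((hf s.1).trans (le_ciSup (Set.finite_range f).bddAbove s.1))
  · obtain ⟨i, hi⟩ := exists_eq_ciSup_of_finite (f := f)
    obtain ⟨j, hj⟩ := exists_eq_ciSup_of_finite (f := g)
    rw [← hi, ← hj]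
    exact le_ciSup (f := fun s : α × β => c * (f s.1 * g s.2)) (Set.finite_range _).bddAbove (i, j)

theorem om : T_om := by
  classical
  intro K _ _ iD a b hd
  obtain ⟨Λ, hΛ, hspec⟩ := lam K a b hd
  -- the matrix has no common zero
  obtain ⟨N, M, A, hN, hM, hloc⟩ := nullE (fun _ : Fin 2 => a) (fun _ : Fin 2 => b)
    (fun s : Fin 3 × Fin 3 => Λ s.1 s.2) (fun _ _ => 2) (fun s => hΛ _ _)
    (fun _ : Unit => (1 : MvPolynomial (Fin 2 × Fin 3) K)) (fun _ _ => 0) (fun _ => MH_one) (by
      intro F _ _ u hu hz y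
      exfalso
      obtain ⟨P, hP⟩ := exists_pt hd (hu 0)
      obtain ⟨Q, hQ⟩ := exists_pt hd (hu 1)
      obtain ⟨s, hs, h1⟩ := hspec F P Q
      obtain ⟨i, hi, -⟩ := coords_normed (P + Q)
      obtain ⟨j, hj, -⟩ := coords_normed (P - Q)
      have h2 := h1 i j
      rw [hi, hj, mul_one, mul_one] at h2
      have h3 : u = ![coords P, coords Q] := by
        funext l
        fin_cases l
        · exact hP.symm
        · exact hQ.symm
      have h4 := hz (i, j)
      rw [h3] at h4
      rw [h4] at h2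
      exact hs h2.symm)
  obtain ⟨C, hC0, hC⟩ := tot_kap A hM 1
  refine ⟨fun s => Λ s.1 (Fin.castSucc s.2), fun s => hΛ _ _, ?_, C * Module.finrank ℚ K, ?_⟩
  · intro F _ _ v hv s
    obtain ⟨P, hP⟩ := exists_pt hd hv
    obtain ⟨c, -, h1⟩ := hspec F P P
    have h2 := h1 s.1 (Fin.castSucc s.2)
    rw [sub_self, hP] at h2
    rw [h2]
    obtain ⟨i, j⟩ := s
    have h3 : coords (0 : (curve (algebraMap K F a) (algebraMap K F b)).toAffine.Point)
        (Fin.castSucc j) = 0 := by
      change (![0, 0, 1] : Fin 3 → F) (Fin.castSucc j) = 0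
      fin_cases j
      · rfl
      · rfl
    dsimp only
    rw [h3, mul_zero, mul_zero]
  · intro P Q hPQ
    obtain ⟨s, hs, h1⟩ := hspec K P Q
    have h1' : ∀ i j, ev (Λ i j) ![coords P, coords Q] =
        s * (coords (P + Q) i * coords (P - Q) j) := h1
    have hPQ' : P - Q ≠ 0 := sub_ne_zero.mpr hPQ
    have hz0 : coords (P - Q) 0 = 1 := by
      rcases hR : P - Q with _ | ⟨x, y, hxy⟩
      · exact absurd hR hPQ'
      · rfl
    obtain ⟨i0, hi0, -⟩ := coords_normed (P + Q)
    have hne : ∃ s : Fin 3 × Fin 2, ev (Λ s.1 (Fin.castSucc s.2)) ![coords P, coords Q] ≠ 0 := by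
      refine ⟨(i0, 0), ?_⟩
      dsimp only
      rw [h1', hi0, show Fin.castSucc (0 : Fin 2) = (0 : Fin 3) from rfl, hz0, mul_one, mul_one]
      exact hs
    have hu0 : ∀ j, (![coords P, coords Q] : Fin 2 → Fin 3 → K) j ≠ 0 := by
      intro j
      fin_cases j
      · exact (coords_normed P).ne_zero
      · exact (coords_normed Q).ne_zero
    have hFS := FS_lam0 (fun _ : Fin 3 × Fin 2 => fun _ : Fin 2 => 2)
      (fun s => Λ s.1 (Fin.castSucc s.2)) (fun s => hΛ _ _) hu0 hne
    refine ⟨hne, hFS, ?_⟩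
    set y : Fin 3 → K := coords (P - Q) with hy
    set x : Fin 3 → K := coords (P + Q) with hx
    set y2 : Fin 2 → K := fun j => y (Fin.castSucc j) with hy2
    have hyne : y ≠ 0 := (coords_normed (P - Q)).ne_zero
    have hxne : x ≠ 0 := (coords_normed (P + Q)).ne_zero
    have hy2ne : y2 ≠ 0 := by
      intro h
      have h2 := congrFun h 0
      change y 0 = 0 at h2
      rw [hz0] at h2
      exact one_ne_zero h2
    have hbd : ∀ w : AbsoluteValue K ℝ,
        max 0 (-Real.log (⨆ s : Fin 3 × Fin 2, nvW w (fun _ => 2) (Λ s.1 (Fin.castSucc s.2))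
          ![coords P, coords Q])) ≤
        (Real.log (kap A M 1 w) + Real.log (⨆ c, w (y c))) +
          (-1) * Real.log (⨆ c, w (y2 c)) := by
      intro w
      set D : ℝ := w s / ((⨆ c, w (coords P c)) ^ 2 * (⨆ c, w (coords Q c)) ^ 2) with hD
      have hD0 : 0 < D := by
        refine div_pos (w.pos hs) (mul_pos ?_ ?_)
        · exact pow_pos (sup_posW w (coords_normed P).ne_zero) _
        · exact pow_pos (sup_posW w (coords_normed Q).ne_zero) _
      have e1 : (⨆ s : Fin 3 × Fin 2, nvW w (fun _ => 2) (Λ s.1 (Fin.castSucc s.2))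
          ![coords P, coords Q]) = D * ((⨆ c, w (x c)) * ⨆ c, w (y2 c)) := by
        rw [← iSup_prod (fun i => w (x i)) (fun j => w (y2 j)) (fun _ => w.nonneg _)
          (fun _ => w.nonneg _) D hD0.le]
        congr 1
        funext s'
        exact nvW_lam w Λ _ _ x y s h1' _ _
      have e2 : (⨆ s : Fin 3 × Fin 3, nvW w (fun _ => 2) (Λ s.1 s.2)
          ![coords P, coords Q]) = D * ((⨆ c, w (x c)) * ⨆ c, w (y c)) := by
        rw [← iSup_prod (fun i => w (x i)) (fun j => w (y j)) (fun _ => w.nonneg _)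
          (fun _ => w.nonneg _) D hD0.le]
        congr 1
        funext s'
        exact nvW_lam w Λ _ _ x y s h1' _ _
      have hon : ∀ j, OnC a b ((![coords P, coords Q] : Fin 2 → Fin 3 → K) j) := by
        intro j
        fin_cases j
        · exact ⟨coords_normed P, coords_eqn a b (F := K) P 0⟩
        · exact ⟨coords_normed Q, coords_eqn a b (F := K) Q 0⟩
      have h2 := hloc w _ hon ()
      have h3 : nvW w (fun _ : Fin 2 => 0) (1 : MvPolynomial (Fin 2 × Fin 3) K)
          ![coords P, coords Q] = 1 := by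
        simp [nvW, ev]
      rw [h3, one_pow, e2] at h2
      have hX : 0 < ⨆ c, w (x c) := sup_posW w hxne
      have hY : 0 < ⨆ c, w (y c) := sup_posW w hyne
      have hY2 : 0 < ⨆ c, w (y2 c) := sup_pos' w hy2ne
      have hk : 1 ≤ kap A M 1 w := one_le_kap A hM 1 w
      have hk0 : 0 < kap A M 1 w := zero_lt_one.trans_le hk
      have h4 : 0 ≤ Real.log (kap A M 1 w) + (Real.log D + (Real.log (⨆ c, w (x c)) +
          Real.log (⨆ c, w (y c)))) := by
        rw [← Real.log_mul hX.ne' hY.ne', ← Real.log_mul hD0.ne' (mul_pos hX hY).ne',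
          ← Real.log_mul hk0.ne' (mul_pos hD0 (mul_pos hX hY)).ne']
        exact Real.log_nonneg h2
      have h5 : Real.log (⨆ c, w (y2 c)) ≤ Real.log (⨆ c, w (y c)) := by
        refine Real.log_le_log hY2 (ciSup_le (fun j => ?_))
        exact le_supW w y _
      have h6 : 0 ≤ Real.log (kap A M 1 w) := Real.log_nonneg hk
      rw [e1, Real.log_mul hD0.ne' (mul_pos hX hY2).ne', Real.log_mul hX.ne' hY2.ne']
      refine max_le (by linarith) (by linarith)
    have hFSy := FS_sup' hyne
    have hFSy2 := FS_sup' hy2ne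
    have h7 := tot_le hFS (FS_add (FS_add (hC K).1 hFSy) (FS_mul hFSy2 (-1)))
      (fun v => hbd _) (fun v => hbd _)
    refine h7.trans ?_
    rw [tot_add (FS_add (hC K).1 hFSy) (FS_mul hFSy2 (-1)), tot_add (hC K).1 hFSy,
      tot_mul hFSy2, tot_sup' hyne, tot_sup' hy2ne]
    have h8 := (hC K).2
    have h9 : 0 ≤ Height.logHeight y2 := Height.logHeight_nonneg _
    linarith

end Pool.Agent.Y20.VP
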