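import Pool.Agent.Y20.VP.Main

/-!
# The number of points, and lower bounds for the number of exceptional points
-/

set_option autoImplicit false
set_option linter.unusedSectionVars false

open MvPolynomial Pool.Agent.TH954.X Pool.Agent.TH954.X.We Pool.Agent.TH954.V Pool.Agent.TH954.Y
  Pool.Agent.TH954.Y.RedL NumberField

namespace Pool.Agent.Y20.VP

section

variable {K : Type} [Field K] [NumberField K] [DecidableEq K] {k : ℕ} {a b : Fin k → K}

/-- the points of height at most `T` -/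
def BallP (Γ : ∀ i, AddSubgroup (curve (a i) (b i)).toAffine.Point) (T : ℝ) :
    Set (∀ i, (curve (a i) (b i)).toAffine.Point) :=
  {P | (∀ i, P i ∈ Γ i) ∧ ∑ i, Height.logHeight (coords (P i)) ≤ T}

lemma crds_inj : Function.Injective (fun (P : ∀ i, (curve (a i) (b i)).toAffine.Point) (i : Fin k) =>
    coords (P i)) := fun _ _ h => funext (fun i => coords_inj (congrFun h i))

lemma ht_le (P : ∀ i, (curve (a i) (b i)).toAffine.Point) (i : Fin k) :
    Height.logHeight (coords (P i)) ≤ ∑ i, Height.logHeight (coords (P i)) :=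
  Finset.single_le_sum (f := fun i => Height.logHeight (coords (P i)))
    (fun _ _ => Height.logHeight_nonneg _) (Finset.mem_univ i)

lemma BallP_sub (Γ : ∀ i, AddSubgroup (curve (a i) (b i)).toAffine.Point) (T : ℝ) :
    (fun (P : ∀ i, (curve (a i) (b i)).toAffine.Point) (i : Fin k) => coords (P i)) '' BallP Γ T ⊆
      Box (fun i => HS (Γ i)) T := by
  rintro _ ⟨P, ⟨hP, hT⟩, rfl⟩ i
  exact ⟨⟨P i, hP i, rfl⟩, (ht_le P i).trans hT⟩

/-- upper bound -/
theorem growth_up (hd : ∀ i, 4 * a i ^ 3 + 27 * b i ^ 2 ≠ 0)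
    (Γ : ∀ i, AddSubgroup (curve (a i) (b i)).toAffine.Point) :
    ∃ C : ℝ, ∀ T : ℝ, 1 ≤ T → (BallP Γ T).Finite ∧
      ((BallP Γ T).ncard : ℝ) ≤ C * T ^ ((∑ i, (Module.finrank ℤ (Γ i) : ℝ)) / 2) := by
  obtain ⟨C, -, hC⟩ := box_bd a b (fun i => HS (Γ i)) _ (fun i => good_of (a i) (b i) (hd i) (Γ i))
  refine ⟨C, fun T hT => ?_⟩
  obtain ⟨h1, h2⟩ := hC T hT
  have h3 : ((fun (P : ∀ i, (curve (a i) (b i)).toAffine.Point) (i : Fin k) => coords (P i)) ''
      BallP Γ T).Finite := h1.subset (BallP_sub Γ T)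
  refine ⟨Set.Finite.of_finite_image h3 (crds_inj.injOn), ?_⟩
  refine le_trans ?_ h2
  rw [← Set.ncard_image_of_injective (BallP Γ T) (crds_inj (a := a) (b := b))]
  exact_mod_cast Set.ncard_le_ncard (BallP_sub Γ T) h1

/-- lower bound -/
theorem growth_low (hk : 1 ≤ k) (hd : ∀ i, 4 * a i ^ 3 + 27 * b i ^ 2 ≠ 0)
    (Γ : ∀ i, AddSubgroup (curve (a i) (b i)).toAffine.Point) :
    ∃ c : ℝ, 0 < c ∧ ∀ T : ℝ, (k : ℝ) ≤ T →
      c * T ^ ((∑ i, (Module.finrank ℤ (Γ i) : ℝ)) / 2) ≤ ((BallP Γ T).ncard : ℝ) := by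
  classical
  choose c hc hlow using fun i => low K (a i) (b i) (hd i) (Γ i)
  have hk0 : (0 : ℝ) < k := by exact_mod_cast hk
  set e : ℝ := (∑ i, (Module.finrank ℤ (Γ i) : ℝ)) / 2 with he
  refine ⟨(∏ i, c i) / (k : ℝ) ^ e, div_pos (Finset.prod_pos (fun i _ => hc i))
    (Real.rpow_pos_of_pos hk0 _), fun T hT => ?_⟩
  have hT0 : 0 < T := hk0.trans_le hT
  have hT1 : 1 ≤ T / k := by rwa [le_div_iff₀ hk0, one_mul]
  have hfin : ∀ i, {P | P ∈ Γ i ∧ Height.logHeight (coords P) ≤ T / k}.Finite := by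
    intro i
    obtain ⟨⟨C, hC⟩, -⟩ := pack K (a i) (b i) (hd i) (Γ i)
    exact (hC (T / k) hT1).1
  have hsub : (↑(Fintype.piFinset (fun i => (hfin i).toFinset)) :
      Set (∀ i, (curve (a i) (b i)).toAffine.Point)) ⊆ BallP Γ T := by
    intro P hP
    rw [Finset.mem_coe, Fintype.mem_piFinset] at hP
    have hP' : ∀ i, P i ∈ Γ i ∧ Height.logHeight (coords (P i)) ≤ T / k := fun i =>
      (hfin i).mem_toFinset.mp (hP i)
    refine ⟨fun i => (hP' i).1, ?_⟩
    refine (Finset.sum_le_sum (fun i _ => (hP' i).2)).trans (le_of_eq ?_)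
    rw [Finset.sum_const, Finset.card_univ, Fintype.card_fin, nsmul_eq_mul]
    field_simp
  obtain ⟨C, hC⟩ := growth_up hd Γ
  have hk1 : (1 : ℝ) ≤ k := by exact_mod_cast hk
  have h1 := Set.ncard_le_ncard hsub (hC T (hk1.trans hT)).1
  rw [Set.ncard_coe_finset, Fintype.card_piFinset] at h1
  have h2 : (∏ i, ((hfin i).toFinset.card : ℝ)) ≤ ((BallP Γ T).ncard : ℝ) := by
    exact_mod_cast h1
  refine le_trans ?_ h2
  calc (∏ i, c i) / (k : ℝ) ^ e * T ^ e = (∏ i, c i) * (T / k) ^ e := by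
        rw [Real.div_rpow hT0.le hk0.le]
        ring
    _ = ∏ i, (c i * (T / k) ^ ((Module.finrank ℤ (Γ i) : ℝ) / 2)) := by
        rw [Finset.prod_mul_distrib, ← Real.rpow_sum_of_pos (by positivity), he, Finset.sum_div]
    _ ≤ _ := by
        refine Finset.prod_le_prod (fun i _ => ?_) (fun i _ => ?_)
        · have := hc i
          positivity
        · rw [← Set.ncard_eq_toFinset_card _ (hfin i)]
          exact hlow i (T / k) hT1

/-- points with one component zero -/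
theorem low_zero (hk : 1 ≤ k) (hd : ∀ i, 4 * a i ^ 3 + 27 * b i ^ 2 ≠ 0)
    (Γ : ∀ i, AddSubgroup (curve (a i) (b i)).toAffine.Point) (i0 : Fin k) :
    ∃ c : ℝ, 0 < c ∧ ∀ T : ℝ, (k : ℝ) ≤ T →
      c * T ^ ((∑ i, (Module.finrank ℤ (Γ i) : ℝ) - Module.finrank ℤ (Γ i0)) / 2) ≤
        (({P | P ∈ BallP Γ T ∧ P i0 = 0} : Set (∀ i, (curve (a i) (b i)).toAffine.Point)).ncard
          : ℝ) := by
  classical
  set Γ' : ∀ i, AddSubgroup (curve (a i) (b i)).toAffine.Point := Function.update Γ i0 ⊥ with hΓ'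
  obtain ⟨c, hc, hlow⟩ := growth_low hk hd Γ'
  refine ⟨c, hc, fun T hT => ?_⟩
  have h0 : Γ' i0 = ⊥ := by rw [hΓ', Function.update_self]
  have h1 : ∀ i, i ≠ i0 → Γ' i = Γ i := fun i hi => by rw [hΓ', Function.update_of_ne hi]
  have h2 : ∑ i, (Module.finrank ℤ (Γ' i) : ℝ) =
      ∑ i, (Module.finrank ℤ (Γ i) : ℝ) - Module.finrank ℤ (Γ i0) := by
    rw [← Finset.add_sum_erase _ _ (Finset.mem_univ i0),
      ← Finset.add_sum_erase Finset.univ (fun i => (Module.finrank ℤ (Γ i) : ℝ))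
        (Finset.mem_univ i0)]
    have h3 : (Module.finrank ℤ (Γ' i0) : ℝ) = 0 := by
      rw [h0]
      have : Subsingleton (⊥ : AddSubgroup (curve (a i0) (b i0)).toAffine.Point) := inferInstance
      rw [Module.finrank_zero_of_subsingleton]
      exact Nat.cast_zero
    have h4 : ∑ i ∈ Finset.univ.erase i0, (Module.finrank ℤ (Γ' i) : ℝ) =
        ∑ i ∈ Finset.univ.erase i0, (Module.finrank ℤ (Γ i) : ℝ) :=
      Finset.sum_congr rfl (fun i hi => by rw [h1 i (Finset.ne_of_mem_erase hi)])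
    rw [h3, h4]
    ring
  rw [← h2]
  refine (hlow T hT).trans ?_
  have hk1 : (1 : ℝ) ≤ k := by exact_mod_cast hk
  obtain ⟨C, hC⟩ := growth_up hd Γ
  have hsub : BallP Γ' T ⊆ {P | P ∈ BallP Γ T ∧ P i0 = 0} := by
    rintro P ⟨hP, hPT⟩
    have h5 : P i0 = 0 := by
      have := hP i0
      rw [h0] at this
      exact AddSubgroup.mem_bot.mp this
    refine ⟨⟨fun i => ?_, hPT⟩, h5⟩
    by_cases hi : i = i0
    · subst hi
      rw [h5]
      exact (Γ i).zero_mem
    · rw [← h1 i hi]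
      exact hP i
  exact_mod_cast Set.ncard_le_ncard hsub ((hC T (hk1.trans hT)).1.subset (fun P hP => hP.1))

end

end Pool.Agent.Y20.VP
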