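import Pool.Agent.Y20.VP.Zeros
import Pool.Agent.TH954.Y.Tools

/-!
# Fibres over a point; the dimension of the set of points over which the fibre is a whole curve
-/

set_option autoImplicit false

open MvPolynomial Pool.Agent.TH954.X Pool.Agent.TH954.X.We Pool.Agent.TH954.V Pool.Agent.TH954.Y
open scoped Polynomial

namespace Pool.Agent.Y20.VP

/-- one more transcendental coordinate -/
lemma trdeg_step {K F F1 : Type} [Field K] [Field F] [Field F1] [Algebra K F] [Algebra F F1]
    [Algebra K F1] [IsScalarTower K F F1] (L0 : IntermediateField K F)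
    (L1 : IntermediateField K F1) (h : ∀ y ∈ L0, algebraMap F F1 y ∈ L1) (x : F1) (hx : x ∈ L1)
    (ht : Transcendental F x) : Algebra.trdeg K L0 + 1 ≤ Algebra.trdeg K L1 := by
  let φ : L0 →ₐ[K] L1 :=
    { toFun := fun y => ⟨algebraMap F F1 y.1, h y.1 y.2⟩
      map_one' := by ext; simp
      map_mul' := fun a b => by ext; simp
      map_zero' := by ext; simp
      map_add' := fun a b => by ext; simp
      commutes' := fun r => by
        ext
        change algebraMap F F1 (algebraMap K F r) = algebraMap K F1 r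
        rw [← IsScalarTower.algebraMap_apply] }
  let _ : Algebra L0 L1 := φ.toRingHom.toAlgebra
  have : IsScalarTower K L0 L1 := IsScalarTower.of_algebraMap_eq (fun r => (φ.commutes r).symm)
  have hf1 : FaithfulSMul K L0 :=
    (faithfulSMul_iff_algebraMap_injective K L0).mpr (algebraMap K L0).injective
  have hf2 : FaithfulSMul L0 L1 :=
    (faithfulSMul_iff_algebraMap_injective L0 L1).mpr (algebraMap L0 L1).injective
  have h1 : Algebra.trdeg K L0 + Algebra.trdeg L0 L1 ≤ Algebra.trdeg K L1 := trdeg_add_le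
  refine le_trans ?_ h1
  have h2 : 0 < Algebra.trdeg L0 L1 := by
    have : Algebra.Transcendental L0 L1 := ⟨⟨⟨x, hx⟩, ?_⟩⟩
    · exact trdeg_pos L0 L1
    · intro ha
      apply ht
      obtain ⟨p, hp0, hp⟩ := ha
      refine ⟨p.map (algebraMap L0 F), ?_, ?_⟩
      · rw [Ne, Polynomial.map_eq_zero]
        exact hp0
      · have h3 := congrArg (fun y : L1 => (y : F1)) hp
        rw [Polynomial.aeval_def, Polynomial.eval₂_map]
        have h4 : ((Polynomial.aeval (⟨x, hx⟩ : L1) p : L1) : F1) =
            Polynomial.eval₂ ((algebraMap F F1).comp (algebraMap L0 F)) x p := by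
          rw [Polynomial.aeval_def, Polynomial.eval₂_eq_sum_range, Polynomial.eval₂_eq_sum_range]
          push_cast
          rfl
        rw [← h4]
        exact h3
  exact add_le_add_right (Cardinal.one_le_iff_pos.mpr h2) _

section pe

variable {K F : Type} [Field K] [Field F] [Algebra K F] {k : ℕ}

/-- the form in the last group of variables obtained by substituting `u` in the others -/
noncomputable def pe (u : Fin k → Fin 3 → F) (f : MvPolynomial (Fin (k + 1) × Fin 3) K) :
    MvPolynomial (Fin 3) F :=
  aeval (fun p => Fin.lastCases (motive := fun _ => MvPolynomial (Fin 3) F)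
    (X p.2) (fun i => C (u i p.2)) p.1) f

lemma aeval_pe (u : Fin k → Fin 3 → F) (f : MvPolynomial (Fin (k + 1) × Fin 3) K)
    {F' : Type} [Field F'] [Algebra F F'] [Algebra K F'] [IsScalarTower K F F'] (v : Fin 3 → F') :
    aeval v (pe u f) = ev f (snoc (fun i c => algebraMap F F' (u i c)) v) := by
  unfold ev pe
  have h : ((aeval v : MvPolynomial (Fin 3) F →ₐ[F] F').restrictScalars K).comp
      (aeval (fun p : Fin (k + 1) × Fin 3 => Fin.lastCases
        (motive := fun _ => MvPolynomial (Fin 3) F) (X p.2) (fun i => C (u i p.2)) p.1)) =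
      aeval (R := K) (fun p : Fin (k + 1) × Fin 3 =>
        snoc (fun i c => algebraMap F F' (u i c)) v p.1 p.2) := by
    apply algHom_ext
    rintro ⟨i, c⟩
    rw [AlgHom.comp_apply, aeval_X, aeval_X, AlgHom.restrictScalars_apply]
    refine Fin.lastCases ?_ (fun j => ?_) i
    · simp [snoc]
    · simp [snoc]
  exact congrArg (fun φ => φ f) h

lemma pe_hom (u : Fin k → Fin 3 → F) {f : MvPolynomial (Fin (k + 1) × Fin 3) K}
    {δ : Fin (k + 1) → ℕ} (hf : MH δ f) : (pe u f).IsHomogeneous (δ (Fin.last k)) := by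
  classical
  unfold pe
  rw [aeval_def, eval₂_eq']
  refine IsHomogeneous.sum _ _ _ (fun e he => ?_)
  have h1 : (algebraMap K (MvPolynomial (Fin 3) F) (coeff e f)).IsHomogeneous 0 := by
    rw [IsScalarTower.algebraMap_apply K F (MvPolynomial (Fin 3) F)]
    exact isHomogeneous_C _ _
  have h2 : (∏ p : Fin (k + 1) × Fin 3, (Fin.lastCases (motive := fun _ => MvPolynomial (Fin 3) F)
      (X p.2) (fun i => C (u i p.2)) p.1) ^ e p).IsHomogeneous
      (∑ p : Fin (k + 1) × Fin 3, if p.1 = Fin.last k then e p else 0) := by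
    refine IsHomogeneous.prod _ _ _ (fun p _ => ?_)
    obtain ⟨i, c⟩ := p
    refine Fin.lastCases ?_ (fun j => ?_) i
    · simp only [Fin.lastCases_last, if_true]
      have := (isHomogeneous_X F c).pow (e (Fin.last k, c))
      rwa [one_mul] at this
    · simp only [Fin.lastCases_castSucc, (Fin.castSucc_lt_last j).ne, if_false]
      have := (isHomogeneous_C (Fin 3) (u j c)).pow (e (Fin.castSucc j, c))
      rwa [zero_mul] at this
  have h3 : (∑ p : Fin (k + 1) × Fin 3, if p.1 = Fin.last k then e p else 0) =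
      δ (Fin.last k) := by
    rw [Fintype.sum_prod_type, Finset.sum_eq_single (Fin.last k)]
    · simp only [if_true]
      exact hf e he _
    · intro b _ hb
      simp [hb]
    · simp
  have h4 := h1.mul h2
  rw [zero_add, h3] at h4
  exact h4

lemma snoc_injOn {k : ℕ} {F : Type} (u : Fin k → Fin 3 → F) (v w : Fin 3 → F)
    (h : snoc u v = snoc u w) : v = w := by
  have := congrFun h (Fin.last k)
  simpa [snoc] using this

end pe

section base

variable {K F : Type} [Field K] [Field F] [Algebra K F]

lemma aeval_eqn (a b : K) (v : Fin 3 → F) : aeval v (eqn a b 0) =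
    v 2 ^ 2 * v 0 - (v 1 ^ 3 + algebraMap K F a * v 1 * v 0 ^ 2 + algebraMap K F b * v 0 ^ 3) := by
  unfold eqn
  simp

lemma onC_base (a b : K) (v : Fin 3 → F) :
    OnC a b v ↔ OnC (algebraMap K F a) (algebraMap K F b) v := by
  unfold OnC
  rw [aeval_eqn, aeval_eqn]
  rfl

lemma onC_map {a b : K} {F' : Type} [Field F'] [Algebra K F'] [Algebra F F']
    [IsScalarTower K F F'] {v : Fin 3 → F} (h : OnC a b v) :
    OnC a b (fun c => algebraMap F F' (v c)) := by
  obtain ⟨⟨i, hi, hj⟩, hv⟩ := h
  refine ⟨⟨i, by beta_reduce; rw [hi, map_one], fun j hj' => by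
    beta_reduce; rw [hj j hj', map_zero]⟩, ?_⟩
  rw [aeval_eqn] at hv ⊢
  have := congrArg (algebraMap F F') hv
  rw [map_zero] at this
  rw [← this, IsScalarTower.algebraMap_apply K F F', IsScalarTower.algebraMap_apply K F F']
  simp

lemma disc_map {a b : K} (hd : 4 * a ^ 3 + 27 * b ^ 2 ≠ 0) :
    4 * (algebraMap K F a) ^ 3 + 27 * (algebraMap K F b) ^ 2 ≠ 0 := by
  intro h
  apply hd
  apply (algebraMap K F).injective
  rw [map_zero, ← h]
  simp only [map_add, map_mul, map_pow, map_ofNat]

/-- if `f (u, ·)` has too many zeros then it vanishes on the whole affine curve -/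
lemma all_zero [CharZero K] {k : ℕ} {a b : K} (hd : 4 * a ^ 3 + 27 * b ^ 2 ≠ 0)
    (f : MvPolynomial (Fin (k + 1) × Fin 3) K) (δ : Fin (k + 1) → ℕ) (hf : MH δ f)
    (u : Fin k → Fin 3 → F) (L : ℕ) (S : Fin L → Fin 3 → F) (hS : Function.Injective S)
    (hon : ∀ l, OnC a b (S l)) (hz : ∀ l, ev f (snoc u (S l)) = 0)
    (hL : 6 * δ (Fin.last k) + 1 < L)
    {F' : Type} [Field F'] [Algebra F F'] [Algebra K F'] [IsScalarTower K F F'] (v : Fin 3 → F')
    (hv : OnC a b v) (hv0 : v 0 ≠ 0) :
    ev f (snoc (fun i c => algebraMap F F' (u i c)) v) = 0 := by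
  classical
  have : CharZero F := charZero_of_injective_algebraMap (algebraMap K F).injective
  rw [← aeval_pe]
  have hz' : ∀ w ∈ (Finset.univ.image S), OnC (algebraMap K F a) (algebraMap K F b) w ∧
      aeval w (pe u f) = 0 := by
    intro w hw
    obtain ⟨l, -, rfl⟩ := Finset.mem_image.mp hw
    refine ⟨(onC_base a b _).mp (hon l), ?_⟩
    rw [aeval_pe]
    exact hz l
  refine zeros F (algebraMap K F a) (algebraMap K F b) (disc_map hd) (δ (Fin.last k)) (pe u f)
    (pe_hom u hf) (Finset.univ.image S) hz' ?_ F' v ?_ hv0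
  · rw [Finset.card_image_of_injective _ hS, Finset.card_univ, Fintype.card_fin]
    exact hL
  · have h1 := hv.2
    rw [aeval_eqn] at h1 ⊢
    rw [← h1, IsScalarTower.algebraMap_apply K F F', IsScalarTower.algebraMap_apply K F F']

end base

open Pool.Agent.TH954.X.We.Irr WeierstrassCurve.Affine

lemma exists_gen_aux {K F : Type} [Field K] [Field F] [Algebra K F] (a b : K) (α β : F)
    (hα : algebraMap K F a = α) (hβ : algebraMap K F b = β) {F1 : Type} [Field F1]
    (ψ : S α β →+* F1) (hinj : Function.Injective ψ) :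
    ∃ (F1 : Type) (_ : Field F1) (_ : Algebra F F1) (_ : Algebra K F1)
      (_ : IsScalarTower K F F1) (v : Fin 3 → F1), OnC a b v ∧ v 0 = 1 ∧
      Transcendental F (v 1) := by
  let i2 : Algebra F F1 := (ψ.comp (algebraMap F (S α β))).toAlgebra
  let i4 : Algebra K F1 := ((ψ.comp (algebraMap F (S α β))).comp (algebraMap K F)).toAlgebra
  have i6 : IsScalarTower K F F1 := IsScalarTower.of_algebraMap_eq (fun _ => rfl)
  let Ψ : S α β →ₐ[F] F1 := { ψ with commutes' := fun _ => rfl }
  refine ⟨F1, inferInstance, i2, i4, i6, ![1, ψ (xS α β), ψ (yS α β)], ?_, rfl, ?_⟩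
  · refine ⟨⟨0, rfl, fun j hj => absurd hj (Fin.not_lt_zero j)⟩, ?_⟩
    rw [aeval_eqn]
    have e := congrArg ψ (eqS α β)
    rw [map_add, map_add, map_mul, map_pow, map_pow] at e
    have key : ∀ k : K, algebraMap K F1 k = ψ (algebraMap F (S α β) (algebraMap K F k)) :=
      fun _ => rfl
    have ea : algebraMap K F1 a = ψ (algebraMap F (S α β) α) := by rw [key, hα]
    have eb : algebraMap K F1 b = ψ (algebraMap F (S α β) β) := by rw [key, hβ]
    rw [ea, eb]
    simp only [Matrix.cons_val_zero, Matrix.cons_val_one, Matrix.cons_val]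
    rw [e]
    ring
  · change Transcendental F (Ψ (xS α β))
    have h1 : Transcendental F (xS α β) := by
      have h2 : xS α β = algebraMap F[X] (S α β) Polynomial.X := rfl
      rw [h2]
      exact (transcendental_algebraMap_iff (FaithfulSMul.algebraMap_injective _ _)).mpr
        (Polynomial.transcendental_X F)
    intro h3
    exact h1 ((isAlgebraic_algHom_iff Ψ hinj).mp h3)

/-- the generic point of the curve over `F` -/
lemma exists_gen {K F : Type} [Field K] [Field F] [Algebra K F] (a b : K) :
    ∃ (F1 : Type) (_ : Field F1) (_ : Algebra F F1) (_ : Algebra K F1)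
      (_ : IsScalarTower K F F1) (v : Fin 3 → F1), OnC a b v ∧ v 0 = 1 ∧
      Transcendental F (v 1) :=
  exists_gen_aux a b _ _ rfl rfl (algebraMap (S (algebraMap K F a) (algebraMap K F b))
    (FractionRing (S (algebraMap K F a) (algebraMap K F b)))) (IsFractionRing.injective _ _)

theorem zdim : T_zdim := by
  intro K _ _ k a b hd E _ f δ hf c hc L S hS hon hL F _ _ u hu hs
  obtain ⟨F1, _, _, _, _, v, hv, hv0, ht⟩ := exists_gen (F := F) (a (Fin.last k)) (b (Fin.last k))
  have hz : ∀ e, ev (f e) (snoc (fun i c => algebraMap F F1 (u i c)) v) = 0 := by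
    intro e
    refine all_zero (hd (Fin.last k)) (f e) (δ e) (hf e) u L
      (fun l c => algebraMap K F (S l c)) ?_ (fun l => ?_) (fun l => ?_) (hL e) v hv
      (by rw [hv0]; exact one_ne_zero)
    · intro l l' h
      apply hS
      funext c
      exact (algebraMap K F).injective (congrFun h c)
    · exact onC_map (hon l)
    · have := hs (l, e)
      rw [ev_sec] at this
      exact this
  have hB : OnB a b (snoc (fun i c => algebraMap F F1 (u i c)) v) := by
    intro i
    refine Fin.lastCases ?_ (fun j => ?_) i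
    · simpa [snoc] using hv
    · have := onC_map (F' := F1) (hu j)
      simpa [snoc] using this
  have h1 := hc F1 _ hB hz
  have h2 := trdeg_step (IntermediateField.adjoin K
      (Set.range (fun p : Fin k × Fin 3 => u p.1 p.2)))
    (IntermediateField.adjoin K (Set.range (fun p : Fin (k + 1) × Fin 3 =>
      snoc (fun i c => algebraMap F F1 (u i c)) v p.1 p.2))) ?_ (v 1) ?_ ht
  · have h3 := (add_le_add_left h2 (c : Cardinal)).trans h1
    push_cast at h3
    rw [add_right_comm] at h3
    exact (Cardinal.add_le_add_iff_of_lt_aleph0 Cardinal.one_lt_aleph0).mp h3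
  · intro y hy
    have hle : IntermediateField.adjoin K (Set.range (fun p : Fin k × Fin 3 => u p.1 p.2)) ≤
        (IntermediateField.adjoin K (Set.range (fun p : Fin (k + 1) × Fin 3 =>
          snoc (fun i c => algebraMap F F1 (u i c)) v p.1 p.2))).comap
          (IsScalarTower.toAlgHom K F F1) := by
      rw [IntermediateField.adjoin_le_iff]
      rintro _ ⟨p, rfl⟩
      refine IntermediateField.subset_adjoin K _ ⟨(Fin.castSucc p.1, p.2), ?_⟩
      simp [snoc]
    exact hle hy
  · refine IntermediateField.subset_adjoin K _ ⟨(Fin.last k, 1), ?_⟩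
    simp [snoc]

end Pool.Agent.Y20.VP
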