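import Pool.Agent.TH954.X2.WIrr
import Pool.Agent.TH954.Y.Defs

/-!
# Zeros of forms on an elliptic curve
-/

set_option autoImplicit false

open MvPolynomial Pool.Agent.TH954.X Pool.Agent.TH954.X.We Pool.Agent.TH954.V Pool.Agent.TH954.Y
open scoped Polynomial

namespace Pool.Agent.Y20.VP

open WeierstrassCurve.Affine Pool.Agent.TH954.X.We.Irr

section

variable {F : Type} [Field F] {α β : F}

lemma val_sum_le {ι : Type} (s : Finset ι) (f : ι → S α β) (n : ℕ)
    (h : ∀ i ∈ s, val α β (f i) ≤ n) : val α β (∑ i ∈ s, f i) ≤ n := by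
  classical
  have h1 : val α β (∑ i ∈ s, f i) < ((n + 1 : ℕ) : WithBot ℕ) := by
    refine Finset.sum_induction f (fun u => val α β u < ((n + 1 : ℕ) : WithBot ℕ))
      (fun u v hu hv => val_add hu hv) (val_zero _) ?_
    intro i hi
    refine lt_of_le_of_lt (h i hi) ?_
    exact_mod_cast Nat.lt_succ_self n
  rcases hv : val α β (∑ i ∈ s, f i) with _ | m
  · exact bot_le
  · rw [hv] at h1
    have h2 : ((m : ℕ) : WithBot ℕ) < ((n + 1 : ℕ) : WithBot ℕ) := h1
    have h3 : m < n + 1 := by exact_mod_cast h2
    have h4 : ((m : ℕ) : WithBot ℕ) ≤ (n : WithBot ℕ) := by exact_mod_cast Nat.lt_succ_iff.mp h3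
    exact h4

/-- the pole order of the value of a form of degree `D` -/
lemma val_form {g : MvPolynomial (Fin 3) F} {D : ℕ} (hg : g.IsHomogeneous D) :
    val α β (aeval ![1, xS α β, yS α β] g) ≤ ((3 * D : ℕ) : WithBot ℕ) := by
  classical
  rw [aeval_def, eval₂_eq']
  refine val_sum_le _ _ _ (fun m hm => ?_)
  have hterm : algebraMap F (S α β) (coeff m g) *
      ∏ i, (![1, xS α β, yS α β] : Fin 3 → S α β) i ^ m i =
      algebraMap F (S α β) (coeff m g) * (xS α β ^ m 1 * yS α β ^ m 2) := by
    rw [Fin.prod_univ_three]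
    simp
  rw [hterm, val_mon _ (mem_support_iff.1 hm)]
  have h1 := hg (mem_support_iff.1 hm)
  rw [Finsupp.weight_apply, Finsupp.sum_fintype _ _ (by simp)] at h1
  have h2 : m 0 + m 1 + m 2 = D := by simpa [Fin.sum_univ_three] using h1
  exact_mod_cast (by omega : 2 * m 1 + 3 * m 2 ≤ 3 * D)

lemma evP_pol {F' : Type} [Field F'] [Algebra F F'] (x y : F')
    (h : y ^ 2 = x ^ 3 + algebraMap F F' α * x + algebraMap F F' β) (p : F[X]) :
    evP α β x y h (p • (1 : S α β)) = Polynomial.aeval x p := by
  have h3 : ((evP α β x y h).comp (IsScalarTower.toAlgHom F F[X] (S α β))) =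
      Polynomial.aeval x := by
    apply Polynomial.algHom_ext
    rw [AlgHom.comp_apply, Polynomial.aeval_X]
    exact evP_x α β x y h
  rw [← h3, Algebra.smul_def, mul_one]
  rfl

/-- the `x`-coordinates of the zeros of `u` are roots of the norm -/
lemma norm_root {F' : Type} [Field F'] [Algebra F F'] (x y : F')
    (h : y ^ 2 = x ^ 3 + algebraMap F F' α * x + algebraMap F F' β) (u : S α β)
    (hu : evP α β x y h u = 0) : Polynomial.aeval x (Algebra.norm F[X] u) = 0 := by
  obtain ⟨p, q, rfl⟩ := CoordinateRing.exists_smul_basis_eq u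
  have h1 : q • CoordinateRing.mk (curve α β).toAffine Polynomial.X =
      (q • (1 : S α β)) * yS α β := by
    rw [smul_mul_assoc, one_mul]
    rfl
  rw [map_add, h1, map_mul, evP_pol, evP_pol, evP_y] at hu
  rw [CoordinateRing.norm_smul_basis]
  have e1 : (curve α β).toAffine.a₁ = 0 := rfl
  have e2 : (curve α β).toAffine.a₂ = 0 := rfl
  have e3 : (curve α β).toAffine.a₃ = 0 := rfl
  have e4 : (curve α β).toAffine.a₄ = α := rfl
  have e6 : (curve α β).toAffine.a₆ = β := rfl
  rw [e1, e2, e3, e4, e6]
  simp only [map_sub, map_mul, map_pow, map_add, Polynomial.aeval_X, Polynomial.aeval_C, map_zero]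
  linear_combination (Polynomial.aeval x p - Polynomial.aeval x q * y) * hu +
    (Polynomial.aeval x q) ^ 2 * h

lemma norm_ne {u : S α β} (hu : u ≠ 0) : Algebra.norm F[X] u ≠ 0 := by
  have : Module.Finite F[X] (S α β) :=
    Module.Finite.of_basis (CoordinateRing.basis (curve α β).toAffine)
  have : Module.Free F[X] (S α β) :=
    Module.Free.of_basis (CoordinateRing.basis (curve α β).toAffine)
  exact Algebra.norm_ne_zero_iff.mpr hu

end

lemma onC_cases {F : Type} [Field F] {a b : F} {v : Fin 3 → F} (h : OnC a b v) :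
    v = ![0, 0, 1] ∨ (v 0 = 1 ∧ v 2 ^ 2 = v 1 ^ 3 + a * v 1 + b) := by
  obtain ⟨⟨i, hi, hj⟩, hv⟩ := h
  have he : v 2 ^ 2 * v 0 - (v 1 ^ 3 + a * v 1 * v 0 ^ 2 + b * v 0 ^ 3) = 0 := by
    have := hv
    unfold eqn at this
    simpa using this
  by_cases h00 : v 0 = 0
  · left
    rw [h00] at he
    have h1 : v 1 = 0 := by
      have : v 1 ^ 3 = 0 := by linear_combination -he
      exact pow_eq_zero_iff (three_ne_zero) |>.1 this
    have h2 : v 2 = 1 := by
      fin_cases i
      · exact absurd hi (by simp [h00])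
      · exact absurd hi (by simp [h1])
      · exact hi
    funext j
    fin_cases j
    · exact h00
    · exact h1
    · exact h2
  · right
    have h01 : v 0 = 1 := by
      have : i = 0 := by
        by_contra hne
        exact h00 (hj 0 (Fin.pos_of_ne_zero hne))
      rw [this] at hi
      exact hi
    rw [h01] at he
    exact ⟨h01, by linear_combination he⟩

lemma aeval_smulh {K F : Type} [Field K] [Field F] [Algebra K F] {n : ℕ}
    {f : MvPolynomial (Fin n) K} {D : ℕ} (hf : f.IsHomogeneous D) (s : F) (v : Fin n → F) :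
    aeval (s • v) f = s ^ D * aeval v f := by
  rw [aeval_def, eval₂_eq', aeval_def, eval₂_eq', Finset.mul_sum]
  refine Finset.sum_congr rfl (fun m hm => ?_)
  have h6 : ∑ c, m c = D := by
    have h7 := hf (mem_support_iff.mp hm)
    rw [Finsupp.weight_apply, Finsupp.sum_fintype _ _ (by simp)] at h7
    simpa using h7
  simp_rw [Pi.smul_apply, smul_eq_mul, mul_pow]
  rw [Finset.prod_mul_distrib, Finset.prod_pow_eq_pow_sum, h6]
  ring

theorem zeros : T_zeros := by
  classical
  intro F _ _ a b hd D g hg Z hZ hc F' _ _ v hv hv0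
  set u : S a b := aeval ![1, xS a b, yS a b] g with hu
  have hu0 : u = 0 := by
    by_contra hne
    set N := Algebra.norm F[X] u with hN
    have hN0 : N ≠ 0 := norm_ne hne
    have hdeg : N.natDegree ≤ 3 * D := by
      have h1 : val a b u ≤ ((3 * D : ℕ) : WithBot ℕ) := val_form hg
      exact Polynomial.natDegree_le_iff_degree_le.mpr h1
    -- the affine zeros
    have hsub : Z ⊆ insert ![0, 0, 1] (N.roots.toFinset.biUnion (fun x =>
        (Polynomial.X ^ 2 - Polynomial.C (x ^ 3 + a * x + b) : F[X]).roots.toFinset.image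
          (fun y => (![1, x, y] : Fin 3 → F)))) := by
      intro w hw
      obtain ⟨hw1, hw2⟩ := hZ w hw
      rcases onC_cases hw1 with h | ⟨h0, h1⟩
      · rw [h]; exact Finset.mem_insert_self _ _
      · refine Finset.mem_insert_of_mem (Finset.mem_biUnion.mpr ⟨w 1, ?_, ?_⟩)
        · rw [Multiset.mem_toFinset, Polynomial.mem_roots hN0, Polynomial.IsRoot.def]
          have h2 := norm_root (α := a) (β := b) (F' := F) (w 1) (w 2) h1 u (by
            rw [hu, comp_aeval_apply]
            rw [← hw2]
            congr 1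
            congr 1
            funext j
            fin_cases j
            · simpa using h0.symm
            · exact evP_x _ _ _ _ _
            · exact evP_y _ _ _ _ _)
          rw [Polynomial.coe_aeval_eq_eval] at h2
          exact h2
        · rw [Finset.mem_image]
          refine ⟨w 2, ?_, ?_⟩
          · have hp : (Polynomial.X ^ 2 - Polynomial.C (w 1 ^ 3 + a * w 1 + b) : F[X]) ≠ 0 :=
              Polynomial.X_pow_sub_C_ne_zero two_pos _
            rw [Multiset.mem_toFinset, Polynomial.mem_roots hp, Polynomial.IsRoot.def]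
            simp [h1]
          · funext j
            fin_cases j
            · simpa using h0.symm
            · rfl
            · rfl
    have hcard := Finset.card_le_card hsub
    have h3 : (N.roots.toFinset.biUnion (fun x =>
        (Polynomial.X ^ 2 - Polynomial.C (x ^ 3 + a * x + b) : F[X]).roots.toFinset.image
          (fun y => (![1, x, y] : Fin 3 → F)))).card ≤ (3 * D) * 2 := by
      refine (Finset.card_biUnion_le_card_mul _ _ 2 (fun x _ => ?_)).trans ?_
      · refine Finset.card_image_le.trans ((Multiset.toFinset_card_le _).trans ?_)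
        refine (Polynomial.card_roots' _).trans ?_
        rw [Polynomial.natDegree_X_pow_sub_C]
      · refine Nat.mul_le_mul_right _ ?_
        exact (Multiset.toFinset_card_le _).trans ((Polynomial.card_roots' _).trans hdeg)
    have h4 := Finset.card_insert_le (![0, 0, 1] : Fin 3 → F) (N.roots.toFinset.biUnion (fun x =>
        (Polynomial.X ^ 2 - Polynomial.C (x ^ 3 + a * x + b) : F[X]).roots.toFinset.image
          (fun y => (![1, x, y] : Fin 3 → F))))
    omega
  -- a general point: normalise
  have he : v 2 ^ 2 * v 0 - (v 1 ^ 3 + algebraMap F F' a * v 1 * v 0 ^ 2 +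
      algebraMap F F' b * v 0 ^ 3) = 0 := by
    have := hv
    unfold eqn at this
    simpa using this
  have hE : (v 2 / v 0) ^ 2 = (v 1 / v 0) ^ 3 + algebraMap F F' a * (v 1 / v 0) +
      algebraMap F F' b := by
    field_simp
    linear_combination he
  have h1 := congrArg (evP a b (v 1 / v 0) (v 2 / v 0) hE) hu0
  rw [map_zero, hu, comp_aeval_apply] at h1
  have h2 : (fun i => evP a b (v 1 / v 0) (v 2 / v 0) hE
      ((![1, xS a b, yS a b] : Fin 3 → S a b) i)) = (v 0)⁻¹ • v := by
    funext j
    fin_cases j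
    · simp [hv0]
    · show evP a b (v 1 / v 0) (v 2 / v 0) hE (xS a b) = (v 0)⁻¹ * v 1
      rw [evP_x]; field_simp
    · show evP a b (v 1 / v 0) (v 2 / v 0) hE (yS a b) = (v 0)⁻¹ * v 2
      rw [evP_y]; field_simp
  rw [h2] at h1
  have h3 : aeval ((v 0)⁻¹ • v) g = ((v 0)⁻¹) ^ D * aeval v g := by
    exact aeval_smulh hg _ _
  rw [h3] at h1
  exact (mul_eq_zero.mp h1).resolve_left (pow_ne_zero _ (inv_ne_zero hv0))

end Pool.Agent.Y20.VP
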